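import Pool.Agent.Lib.MP_fe5cb4_co.FCT.Basic

/-!
Discharging: the charge that moves along edges, parts of cartwheels as bit sets, and the checker
of certificates.
-/

set_option autoImplicit false

namespace Pool.Agent.FCT.Dis

/-! Semantics -/

section Sem

variable {V : Type}

/-- The vertex in the slot `s = 5 j + t` of the cartwheel at the flag `h a b`. -/
def vtx (T : Tri V) (h a b : V) (s : ℕ) : V :=
  if s % 5 = 0 then T.rot h a b (s / 5)
  else if s % 5 = 1 then T.rot (T.rot h a b (s / 5)) h (T.rot h a b (s / 5 + 1)) 2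
  else if s % 5 = 2 then
    T.rot (T.rot h a b (s / 5)) h (T.opp h (T.rot h a b (s / 5)) (T.rot h a b (s / 5 + 1))) 3
  else if s % 5 = 3 then
    if T.deg (T.rot h a b (s / 5)) % 2 = 0 then
      T.rot (T.rot h a b (s / 5)) h (T.opp h (T.rot h a b (s / 5)) (T.rot h a b (s / 5 + 1)))
        (T.deg (T.rot h a b (s / 5)) / 2)
    else h
  else T.rot (T.rot h a b (s / 5)) h (T.rot h a b (s / 5 + 1)) 3

/-- The vertex in a register: `126` is the hub. -/
def reg (T : Tri V) (h a b : V) (s : ℕ) : V := if s = 126 then h else vtx T h a b s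

/-- The class of a degree. -/
def cls (g : ℕ) : ℕ := min g 9 - 5

/-- The bit `6 s + k` says that the class of the slot `s` is not `k`. -/
def fact (T : Tri V) (h a b : V) (n : ℕ) : Prop :=
  n % 6 < 5 ∧ cls (T.deg (vtx T h a b (n / 6))) ≠ n % 6

/-- All facts of the bit set hold. -/
def All (F : ℕ → Prop) (E : ℕ) : Prop := ∀ n, E.testBit n = true → F n

/-- All facts of the instance hold. -/
def HI (F : ℕ → Prop) (x : ℕ) : Prop := ∀ n < 336, x.testBit n = true → F n

/-- The positions of a rule. -/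
def RP : List (ℕ × ℕ × ℕ) :=
  [(0, 1, 2), (0, 2, 1), (0, 3, 1), (1, 2, 0), (1, 3, 0), (2, 4, 0), (3, 5, 0), (2, 8, 4),
    (3, 9, 5), (0, 4, 2), (0, 12, 4), (0, 5, 3), (1, 6, 2), (1, 15, 6)]

/-- The rule `x` applies at the flag `s t u`. -/
def RH (T : Tri V) (x : ℕ) (s t u : V) : Prop :=
  ∀ k < 17, x.testBit (12 + 5 * k + cls (T.deg (devF T RP s t u k))) = false

open Classical in
/-- The charge the rules send along a flag. -/
noncomputable def raw (T : Tri V) (rs : List ℕ) (s t u : V) : ℕ :=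
  (rs.map fun x => if RH T x s t u then x % 4096 else 0).sum

/-- The charge the rules send from `s` to `t`. -/
noncomputable def raw2 (T : Tri V) (rs : List ℕ) (s t u : V) : ℕ :=
  raw T rs s t u + raw T rs s t (T.opp s t u)

/-- The gain of the hub on the edge to the spoke `i`. -/
noncomputable def net (T : Tri V) (rs : List ℕ) (cap : ℕ) (h a b : V) (i : ℕ) : ℤ :=
  (min cap (raw2 T rs (T.rot h a b i) h (T.rot h a b (i + 1))) : ℕ) -
    (min cap (raw2 T rs h (T.rot h a b i) (T.rot h a b (i + 1))) : ℕ)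

/-- The sum over a bit set of edges. -/
def sumA (d : ℕ) (f : ℕ → ℤ) (A : ℕ) : ℤ := ∑ i ∈ Finset.range d, if A.testBit i then f i else 0

/-- The claim of an entry of the table. -/
def Valid (T : Tri V) (rs : List ℕ) (cap d x : ℕ) : Prop :=
  ∀ h a b, T.F h a b → T.deg h = d → All (fact T h a b) (x / 2 ^ 24) →
    sumA d (net T rs cap h a b) (x / 2 ^ 12 % 4096) ≤ (x % 4096 : ℕ) - 1024

/-- The field `k` of width `w` above the offset `o`. -/
def fld (x o w k : ℕ) : ℕ := x / 2 ^ (o + w * k) % 2 ^ w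

/-- The quiz `x` has no solution. -/
def XQ (T : Tri V) (x : ℕ) : Prop :=
  ∀ z : ℕ → V, T.F (z 0) (z 1) (z 2) → (∀ k < 3, fld x 0 4 k ≠ 0 → T.deg (z k) = fld x 0 4 k) →
    (∀ k < fld x 12 5 0, fld (fld x 17 19 k) 0 5 0 < 3 + k → fld (fld x 17 19 k) 0 5 1 < 3 + k →
      fld (fld x 17 19 k) 0 5 2 < 3 + k → z (3 + k) = T.opp (z (fld (fld x 17 19 k) 0 5 0))
        (z (fld (fld x 17 19 k) 0 5 1)) (z (fld (fld x 17 19 k) 0 5 2))) →
    (∀ k < fld x 12 5 0, fld (fld x 17 19 k) 15 4 0 ≠ 0 →
      T.deg (z (3 + k)) = fld (fld x 17 19 k) 15 4 0) → False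

end Sem

/-! The checker -/

/-- Evaluate `x` before passing it on. -/
noncomputable def sl {α : Type} (x : ℕ) (f : ℕ → α) : α :=
  Nat.rec (motive := fun _ => α) (f (nat_lit 0)) (fun n _ => f n) (Nat.succ x)

/-- A table of numbers with 384 bits, in blocks. -/
inductive Tr : Type
  | leaf (x : ℕ) : Tr
  | node (l r : Tr) : Tr

/-- The entry of a table. -/
noncomputable def Tr.get (t : Tr) : ℕ → ℕ :=
  Tr.rec (motive := fun _ => ℕ → ℕ)
    (fun x n => Nat.land (Nat.shiftRight x (Nat.mul (nat_lit 384) n)) (nat_lit 0xffffffffffffffffffffffffffffffffffffffffffffffffffffffffffffffffffffffffffffffffffffffffffffffff))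
    (fun _ _ il ir n => Bool.rec (motive := fun _ => ℕ) (ir (Nat.shiftRight n (nat_lit 1)))
      (il (Nat.shiftRight n (nat_lit 1))) (Nat.beq (Nat.land n (nat_lit 1)) (nat_lit 0))) t

/-- The position of `x` seen from the spoke `a`; `D = 5 d`. -/
noncomputable def rel (D a x : ℕ) : ℕ :=
  Bool.rec (motive := fun _ => ℕ) (Nat.sub (nat_lit 14) (Nat.sub (nat_lit 14)
    (Nat.mod (Nat.sub (Nat.add (Nat.add x D) (nat_lit 5)) a) D))) (nat_lit 15)
    (Nat.beq x (nat_lit 126))

/-- The field of a slot. -/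
def fd (E s : ℕ) : ℕ := Nat.land (Nat.shiftRight E (Nat.mul (nat_lit 6) s)) (nat_lit 31)

/-- The kind of a spoke: degree `5, 6, 7, 8` or unknown. -/
def kind (f : ℕ) : ℕ :=
  Nat.land (Nat.shiftRight (nat_lit 0x80c524724924924924924924) (Nat.mul (nat_lit 3) f)) (nat_lit 7)

/-- The table of turns about a spoke. -/
def tt (g p q : ℕ) : ℕ :=
  Nat.land (Nat.shiftRight (nat_lit 0xffffff83ffffffffffeaffffffffffffffffffffffffffffffffffffffffffffffffffffffffffffffffffffffffffffffff37fffffffffbffffffffffffffffffffffffffffffffffffffffffffffffffffffffffffffffffffffffffa55fffffffffffffffffffffffffffffffffffffffffffffffffffffffffffffffffffffffffffffffffffffffffffffffffffff07ffffffe70ffffffffffffffffdffffffff83ffffffffffeaffffffffffffffffffffffffffffffffffffffffffffffffffffffffffffffffffffffffffffffff37fffffffffbffffffffffffffffe6fa3ffffffffffffffcff4fffffffffffffffffe1fffffffd1fffffffa55ffffffffffffffffffffffffffffffffffffffffffffffffffffffffffffffffffffffffffffffffffffffffffffffffffff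f07ffffffe70ffffffffffffffffdffffffff83ffffffffffeaffffffffffffffffffffffffffffffffffffffffffffffffffffffffffffffffffffffffffffffff37fffffffffbffffffffffffffffff31fffffffffffffffffffffffffffffffffffc3ffffffffd3fffffffa55fffffffffffffffffffffffffffffffffffffffffffffffffffffffffffffffffffffffffffffffffffffffffffffffffffff07ffffffe70ffffffffffffffffdffffffff83ffffffffffeaffffffffffffffffffffffffffffffffffffffffffffffffffffffffffffffffffffffffffffffff37fffffffffbfffffffffffffffffffffffffffffffffffffff87ffffcdfffffffffffffffffffffffffffa3eaffffffffffffffffffffffffffffffffffffffffffffffffffffffffffffffffffffffffffffffffffffffffffffffffffe0ffffffffe80ffffffffffffffffdffffffff83ffffffffffeaffffffffffffffffffffffffffffffffffffffffffffffffffffffffffffffffffffffffffffffff37fffffffffbffffffffffffffffffffffffffffffffffffffffffffffffffffffffffffffffffffffffff87fffffffffd5ffffffffffffffffffffffffffffffffffffffffffffffffffffffffffffffffffffffffffffffffffffffffffff83fffffe60ffffffffffffffffdff)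
    (Nat.mul (nat_lit 5) (Nat.add (Nat.mul (nat_lit 16) (Nat.add (Nat.mul (nat_lit 16) g) p)) q)))
    (nat_lit 31)

/-- Turn about the spoke `a`. -/
noncomputable def turn (D E a b c : ℕ) : ℕ :=
  Bool.rec (motive := fun _ => ℕ) (nat_lit 127)
    (sl (tt (kind (fd E a)) (rel D a b) (rel D a c)) fun x =>
      Bool.rec (motive := fun _ => ℕ)
        (Nat.mod (Nat.sub (Nat.add (Nat.add a D) x) (nat_lit 5)) D)
        (Bool.rec (motive := fun _ => ℕ) (nat_lit 127) (nat_lit 126) (Nat.beq x (nat_lit 15)))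
        (Nat.ble (nat_lit 15) x))
    (Nat.ble a D)

/-- The slot of `opp a b c`, or `127`. -/
noncomputable def oppS (D E a b c : ℕ) : ℕ :=
  Bool.rec (motive := fun _ => ℕ)
    (Bool.rec (motive := fun _ => ℕ) (nat_lit 127) (turn D E b a c)
      (Nat.beq (Nat.mod b (nat_lit 5)) (nat_lit 0)))
    (turn D E a b c) (Nat.beq (Nat.mod a (nat_lit 5)) (nat_lit 0))

/-- A register. -/
def rd (R i : ℕ) : ℕ := Nat.land (Nat.shiftRight R (Nat.mul (nat_lit 7) i)) (nat_lit 127)

/-- The degree condition of a quiz. -/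
noncomputable def qc (d E g y : ℕ) : Bool :=
  Bool.rec (motive := fun _ => Bool)
    (Bool.rec (motive := fun _ => Bool)
      (Nat.beq (fd E y) (Nat.land (Nat.shiftRight (nat_lit 0xffffffffffd76dd7bfffffff) (Nat.mul (nat_lit 6) g))
        (nat_lit 63))) (Nat.beq g d) (Nat.beq y (nat_lit 126)))
    true (Nat.beq g (nat_lit 0))

/-- Run the operations of a quiz; `s` is seven times the next register. -/
noncomputable def qrun (d D E n : ℕ) : ℕ → ℕ → ℕ → Bool :=
  Nat.rec (motive := fun _ => ℕ → ℕ → ℕ → Bool) (fun _ _ _ => true) (fun _ ih o s R =>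
    sl (oppS D E (rd R (Nat.land o (nat_lit 31)))
      (rd R (Nat.land (Nat.shiftRight o (nat_lit 5)) (nat_lit 31)))
      (rd R (Nat.land (Nat.shiftRight o (nat_lit 10)) (nat_lit 31)))) fun y =>
      Bool.rec (motive := fun _ => Bool)
        (Bool.rec (motive := fun _ => Bool) false
          (sl (Nat.lor R (Nat.shiftLeft y s)) fun R' =>
            sl (Nat.shiftRight o (nat_lit 19)) fun o' =>
              sl (Nat.add s (nat_lit 7)) fun s' => ih o' s' R')
          (qc d E (Nat.land (Nat.shiftRight o (nat_lit 15)) (nat_lit 15)) y))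
        false (Nat.beq y (nat_lit 127))) n

/-- The placement `R` of the quiz `x` in the part `E`. -/
noncomputable def quiz (d E x R : ℕ) : Bool :=
  (!(oppS (5 * d) E (rd R 0) (rd R 1) (rd R 2)).beq 127 ||
    !(oppS (5 * d) E (rd R 1) (rd R 2) (rd R 0)).beq 127 ||
    !(oppS (5 * d) E (rd R 2) (rd R 0) (rd R 1)).beq 127) &&
  qc d E (x.land 15) (rd R 0) && qc d E ((x.shiftRight 4).land 15) (rd R 1) &&
  qc d E ((x.shiftRight 8).land 15) (rd R 2) &&
  sl (5 * d) fun D => qrun d D E ((x.shiftRight 12).land 31) (x.shiftRight 17) 21 R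

/-- A condition `m` of a rule on the register `y`: `0` is dead, `1` is unknown. -/
noncomputable def cnd (d m y E : ℕ) (k : ℕ → ℕ) : ℕ :=
  bif m.beq 0 then k E
  else bif y.beq 126 then bif ((m.shiftRight (cls d)).land 1).beq 0 then k E else 0
  else bif y.beq 127 then 1
  else sl (E.lor (m.shiftLeft (6 * y))) k

/-- The positions of a rule one after the other. -/
noncomputable def irun (d : ℕ) (l : List (ℕ × ℕ × ℕ)) : ℕ → ℕ → ℕ → ℕ → ℕ :=
  List.rec (motive := fun _ => ℕ → ℕ → ℕ → ℕ → ℕ) (fun _ _ _ E => E + 2) (fun o _ ih x s R E =>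
    sl (bif (rd R o.1).beq 127 || (rd R o.2.1).beq 127 || (rd R o.2.2).beq 127 then 127
      else oppS (5 * d) E (rd R o.1) (rd R o.2.1) (rd R o.2.2)) fun y =>
      sl (R.lor (y.shiftLeft s)) fun R' => sl (x.shiftRight 5) fun x' => sl (s + 7) fun s' =>
        cnd d (x.land 31) y E (ih x' s' R')) l

/-- The instance of the rule `x` at the flag `a b c` of slots. -/
noncomputable def inst (d x a b c : ℕ) : ℕ :=
  cnd d ((x.shiftRight 12).land 31) a 0 fun E => cnd d ((x.shiftRight 17).land 31) b E fun E =>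
    cnd d ((x.shiftRight 22).land 31) c E
      (irun d RP (x.shiftRight 27) 21 (a + 128 * b + 16384 * c))

/-- The instances of all rules at a flag; `p` says that unknown instances are kept. -/
noncomputable def insts (d : ℕ) (p : Bool) (a b c : ℕ) (t : List ℕ) (rs : List ℕ) : List ℕ :=
  List.rec (motive := fun _ => List ℕ) t (fun x _ ih => sl (inst d x a b c) fun y =>
    bif y.beq 0 then ih
    else bif y.beq 1 || (2 ^ 336).ble y then bif p then (x % 4096 * 2 ^ 336) :: ih else ih
    else (y - 2 + x % 4096 * 2 ^ 336) :: ih) rs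

/-- The inflow instances of the edge `0`. -/
noncomputable def insP (d : ℕ) (rs : List ℕ) : List ℕ :=
  insts d true 0 126 5 (insts d true 0 126 (5 * (d - 1)) [] rs) rs

/-- The outflow instances of the edge `0`. -/
noncomputable def insN (d : ℕ) (rs : List ℕ) : List ℕ :=
  insts d false 126 0 5 (insts d false 126 0 (5 * (d - 1)) [] rs) rs

open Classical in
/-- The sum of the values of the instances that hold. -/
noncomputable def wsum (F : ℕ → Prop) (l : List ℕ) : ℕ :=
  (l.map fun x => if HI F x then x / 2 ^ 336 else 0).sum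

/-- The slot of the mirror image. -/
def ms (d s : ℕ) : ℕ :=
  if s % 5 = 0 then 5 * ((d - s / 5) % d)
  else if s % 5 = 1 then 5 * (d - 1 - s / 5) + 1
  else 5 * ((d - s / 5) % d) + (6 - s % 5)

/-! Statements -/

/-- job Opp -/
def StOpp : Prop := ∀ (V : Type) [Fintype V] (T : Tri V), MC T → Birk T → ∀ (h a b : V) (d : ℕ),
  T.F h a b → T.deg h = d → d ≤ 11 → ∀ E p q r : ℕ, All (fact T h a b) E →
  oppS (5 * d) E p q r ≠ 127 → oppS (5 * d) E p q r < 127 ∧
    T.F (reg T h a b p) (reg T h a b q) (reg T h a b r) ∧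
    reg T h a b (oppS (5 * d) E p q r) = T.opp (reg T h a b p) (reg T h a b q) (reg T h a b r)

/-- job Quiz -/
def StQuiz : Prop := ∀ (V : Type) [Fintype V] (T : Tri V), MC T → Birk T → ∀ (h a b : V) (d : ℕ),
  T.F h a b → T.deg h = d → d ≤ 11 → ∀ E x R : ℕ, All (fact T h a b) E → R < 2 ^ 21 →
  quiz d E x R = true → ¬ XQ T x

/-- job Rot -/
def StRot : Prop := ∀ (V : Type) [Fintype V] (T : Tri V), MC T → Birk T → ∀ (h a b : V) (d : ℕ),
  T.F h a b → T.deg h = d → ∀ (rs : List ℕ) (cap : ℕ),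
  (∀ r s, vtx T h (T.rot h a b r) (T.rot h a b (r + 1)) s = vtx T h a b (s + 5 * r)) ∧
  (∀ s, vtx T h a b (s + 5 * d) = vtx T h a b s) ∧
  (∀ r i, net T rs cap h (T.rot h a b r) (T.rot h a b (r + 1)) i = net T rs cap h a b (i + r)) ∧
  (∀ i, net T rs cap h a b (i + d) = net T rs cap h a b i) ∧
  (∀ s < 5 * d, vtx T h a (T.opp h a b) (ms d s) = vtx T h a b s) ∧
  ∀ i ≤ d, net T rs cap h a (T.opp h a b) i = net T rs cap h a b (d - i)

/-- job Inst -/
def StInst : Prop := ∀ (V : Type) [Fintype V] (T : Tri V), MC T → Birk T → ∀ (h a b : V) (d : ℕ),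
  T.F h a b → T.deg h = d → d ≤ 11 → ∀ x p q r : ℕ, p < 127 → q < 127 → r < 127 →
  T.F (reg T h a b p) (reg T h a b q) (reg T h a b r) →
  (inst d x p q r = 0 → ¬ RH T x (reg T h a b p) (reg T h a b q) (reg T h a b r)) ∧
  (2 ≤ inst d x p q r → (RH T x (reg T h a b p) (reg T h a b q) (reg T h a b r) ↔
    All (fact T h a b) (inst d x p q r - 2)))

/-- job Ins -/
def StIns : Prop := ∀ (V : Type) [Fintype V] (T : Tri V), MC T → Birk T → ∀ (h a b : V) (d : ℕ),
  T.F h a b → T.deg h = d → d ≤ 11 → ∀ rs : List ℕ,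
  raw2 T rs a h b ≤ wsum (fact T h a b) (insP d rs) ∧
    wsum (fact T h a b) (insN d rs) ≤ raw2 T rs h a b

/-- job Fin: the top claims cannot all hold -/
def StFin : Prop := ∀ (V : Type) [Fintype V] (T : Tri V), MC T → Birk T →
  ∀ (rs : List ℕ) (cap S : ℕ), 0 < S → 2 * cap ≤ S → S ≤ 600 →
  (∀ d, 5 ≤ d → d ≤ 11 → Valid T rs cap d ((2 ^ d - 1) * 4096 + (1024 + S * d - S * 6))) → False

end Pool.Agent.FCT.Dis
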