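import Pool.Agent.Lib.MP_fe5cb4_co.FCT.Dis.Chk

/-!
Discharging: lemmas on bit sets and on lists of edges.
-/

set_option autoImplicit false
set_option exponentiation.threshold 1000

namespace Pool.Agent.FCT.Dis

theorem sl_def {α : Type} (x : ℕ) (f : ℕ → α) : sl x f = f x := rfl

theorem brec {y : ℕ} {c : Bool} (h : Bool.rec (motive := fun _ => ℕ) (nat_lit 0) y c ≠ 0) :
    c = true ∧ y ≠ 0 := by
  cases c
  · exact absurd rfl h
  · exact ⟨rfl, h⟩

theorem nrec {f : ℕ → ℕ} {x : ℕ}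
    (h : Nat.rec (motive := fun _ => ℕ) (nat_lit 0) (fun n _ => f n) x ≠ 0) :
    ∃ n, x = n + 1 ∧ f n ≠ 0 := by
  cases x with
  | zero => exact absurd rfl h
  | succ n => exact ⟨n, rfl, h⟩

variable {F : ℕ → Prop}

theorem All.or {x y : ℕ} (h : All F x) (h' : All F y) : All F (x ||| y) := fun n e => by
  rw [Nat.testBit_or, Bool.or_eq_true] at e
  exact e.elim (h n) (h' n)

theorem All.add {x y k : ℕ} (h : All F x) (h' : All F y) (hx : x < 2 ^ k) (hy : 2 ^ k ∣ y) :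
    All F (x + y) := by
  obtain ⟨z, rfl⟩ := hy
  rw [Nat.add_comm, Nat.two_pow_add_eq_or_of_lt hx]
  exact h'.or h

theorem All.mul {m p : ℕ} (h : ∀ k, m.testBit k = true → F (p + k)) : All F (m * 2 ^ p) :=
  fun n e => by
    rw [Nat.testBit_mul_two_pow, Bool.and_eq_true, decide_eq_true_eq] at e
    have := h _ e.2
    rwa [Nat.add_sub_cancel' e.1] at this

theorem bit_lt {x k n : ℕ} (h : x < 2 ^ k) (e : x.testBit n = true) : n < k := by
  by_contra c
  rw [Nat.testBit_lt_two_pow (h.trans_le (Nat.pow_le_pow_right (by omega) (by omega)))] at e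
  exact absurd e (by simp)

theorem all_four {m p q r s : ℕ} (hm : m < 32) (h1 : p + 5 ≤ q) (h2 : q + 5 ≤ r) (h3 : r + 5 ≤ s)
    (h : ∀ k, m.testBit k = true → F (p + k) ∧ F (q + k) ∧ F (r + k) ∧ F (s + k)) :
    All F (m * 2 ^ p + (m * 2 ^ q + (m * 2 ^ r + m * 2 ^ s))) := by
  have l : ∀ t, m * 2 ^ t < 2 ^ (t + 5) := fun t => by
    have := Nat.two_pow_pos t
    rw [pow_add]
    nlinarith
  have v : ∀ t u, t + 5 ≤ u → 2 ^ (t + 5) ∣ m * 2 ^ u := fun t u e =>
    (pow_dvd_pow 2 e).mul_left m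
  exact (All.mul fun k e => (h k e).1).add ((All.mul fun k e => (h k e).2.1).add
    ((All.mul fun k e => (h k e).2.2.1).add (All.mul fun k e => (h k e).2.2.2) (l r) (v r s h3))
    (l q) (dvd_add (v q r h2) (v q s (by omega)))) (l p)
    (dvd_add (v p q h1) (dvd_add (v p r (by omega)) (v p s (by omega))))

theorem Tr.get_lt (t : Tr) (n : ℕ) : t.get n < 2 ^ 384 := by
  induction t generalizing n with
  | leaf x => exact Nat.lt_succ_of_le Nat.and_le_right
  | node l r il ir =>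
    show Bool.rec (motive := fun _ => ℕ) (r.get _) (l.get _) _ < _
    cases (Nat.beq (Nat.land n (nat_lit 1)) (nat_lit 0))
    · exact ir _
    · exact il _

theorem and_mod (y k : ℕ) (h : k < 64) : y &&& k = y % 64 &&& k := by
  refine Nat.eq_of_testBit_eq fun i => ?_
  rw [Nat.testBit_and, Nat.testBit_and, show 64 = 2 ^ 6 from rfl, Nat.testBit_mod_two_pow]
  by_cases c : i < 6
  · simp [c]
  · rw [Nat.testBit_lt_two_pow (x := k)
      (h.trans_le (Nat.pow_le_pow_right (n := 2) (by omega) (by omega : 6 ≤ i)))]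
    simp

theorem and47 (y : ℕ) : y &&& 15 < 16 ∧ ((y &&& 32 = 0 ∧ y &&& 47 = y &&& 15) ∨
    (y &&& 32 ≠ 0 ∧ y &&& 47 = 32 + (y &&& 15))) := by
  rw [and_mod y 15 (by omega), and_mod y 32 (by omega), and_mod y 47 (by omega)]
  have : ∀ z < 64, z &&& 15 < 16 ∧ ((z &&& 32 = 0 ∧ z &&& 47 = z &&& 15) ∨
    (z &&& 32 ≠ 0 ∧ z &&& 47 = 32 + (z &&& 15))) := by decide
  exact this _ (Nat.mod_lt _ (by omega))

theorem and511 (w k : ℕ) (h : k < 64) : (w &&& 511) >>> 3 &&& k = w >>> 3 &&& k := by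
  rw [Nat.shiftRight_and_distrib, show 511 >>> 3 = 2 ^ 6 - 1 from rfl,
    Nat.and_two_pow_sub_one_eq_mod, ← and_mod _ k h]

/-- The sum over a list of edges. -/
def sumL (N : ℕ → ℤ) (R : List ℕ) : ℤ := (R.map N).sum

theorem sumL_cons (N : ℕ → ℤ) (i : ℕ) (R : List ℕ) : sumL N (i :: R) = N i + sumL N R := rfl

theorem sumA_zero (d : ℕ) (N : ℕ → ℤ) : sumA d N 0 = 0 := by simp [sumA]

theorem sumA_xor {d A j : ℕ} (N : ℕ → ℤ) (hj : j < d) (h : A &&& 1 <<< j ≠ 0) :
    sumA d N (A ^^^ 1 <<< j) + N j = sumA d N A := by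
  rw [Nat.one_shiftLeft] at h ⊢
  have t : A.testBit j = true := by
    by_contra c
    rw [Nat.and_two_pow, Bool.eq_false_iff.2 c] at h
    simp at h
  have m := Finset.mem_range.2 hj
  unfold sumA
  rw [← Finset.add_sum_erase _ _ m, ← Finset.add_sum_erase _ _ m, Nat.testBit_xor, t,
    Nat.testBit_two_pow_self]
  have : ∑ i ∈ (Finset.range d).erase j, (if (A ^^^ 2 ^ j).testBit i then N i else 0) =
      ∑ i ∈ (Finset.range d).erase j, if A.testBit i then N i else 0 :=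
    Finset.sum_congr rfl fun i hi => by
      rw [Nat.testBit_xor, Nat.testBit_two_pow_of_ne (Finset.ne_of_mem_erase hi).symm,
        Bool.xor_false]
  rw [this]
  simp [add_comm]

theorem pick_spec (f : ℕ → ℕ) (k : ℕ → List ℕ → List ℕ → ℕ) (d : ℕ) (N N' : ℕ → ℤ) (R : List ℕ)
    (A : ℕ) (c r : List ℕ) (hR : ∀ i ∈ R, i < d) (hc : ∀ i ∈ c, i < d) (hr : ∀ i ∈ r, i < d)
    (hf : ∀ i < d, f i < d ∧ N' (f i) = N i) :
    ∃ A' c' r', pick f k R A c r = k A' c' r' ∧ (∀ i ∈ c', i < d) ∧ (∀ i ∈ r', i < d) ∧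
      sumL N R + sumL N c + sumL N r = sumL N c' + sumL N r' ∧
      sumL N c' + sumA d N' A' = sumL N c + sumA d N' A := by
  induction R generalizing A c r with
  | nil => exact ⟨A, c, r, rfl, hc, hr, by simp [sumL], rfl⟩
  | cons i R ih =>
    have hi := hR i List.mem_cons_self
    have hR' : ∀ j ∈ R, j < d := fun j e => hR j (List.mem_cons_of_mem _ e)
    have e : pick f k (i :: R) A c r = Bool.rec (motive := fun _ => ℕ)
      (pick f k R (A ^^^ 1 <<< f i) (i :: c) r) (pick f k R A c (i :: r))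
      (Nat.beq (A &&& 1 <<< f i) 0) := rfl
    rw [e]
    cases h : Nat.beq (A &&& 1 <<< f i) 0
    · obtain ⟨A', c', r', e1, e2, e3, e4, e5⟩ := ih (A ^^^ 1 <<< f i) (i :: c) r hR'
        (List.forall_mem_cons.2 ⟨hi, hc⟩) hr
      have := sumA_xor N' (hf i hi).1 (Nat.ne_of_beq_eq_false h)
      rw [(hf i hi).2] at this
      rw [sumL_cons] at e4 e5
      exact ⟨A', c', r', e1, e2, e3, by rw [sumL_cons]; omega, by omega⟩
    · obtain ⟨A', c', r', e1, e2, e3, e4, e5⟩ := ih A c (i :: r) hR' hc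
        (List.forall_mem_cons.2 ⟨hi, hr⟩)
      rw [sumL_cons] at e4
      exact ⟨A', c', r', e1, e2, e3, by rw [sumL_cons]; omega, e5⟩

theorem edges_spec (A : ℕ) (k : List ℕ → ℕ) (d : ℕ) (N : ℕ → ℤ) (n : ℕ) (c : List ℕ) (hn : n ≤ d)
    (hc : ∀ i ∈ c, i < d) : ∃ R, edges A k n c = k R ∧ (∀ i ∈ R, i < d) ∧
      sumL N R = sumL N c + sumA n N A := by
  induction n generalizing c with
  | zero => exact ⟨c, rfl, hc, by simp [sumA]⟩
  | succ n ih =>
    have e : edges A k (n + 1) c = Bool.rec (motive := fun _ => ℕ) (edges A k n (n :: c))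
      (edges A k n c) (Nat.beq (A >>> n &&& 1) 0) := rfl
    have s : sumA (n + 1) N A = sumA n N A + if A.testBit n then N n else 0 :=
      Finset.sum_range_succ _ _
    have t : A.testBit n = !Nat.beq (A >>> n &&& 1) 0 := by
      rw [Nat.testBit, Nat.and_comm]
      cases h : Nat.beq (A >>> n &&& 1) 0
      · simpa using Nat.ne_of_beq_eq_false h
      · simpa using Nat.eq_of_beq_eq_true h
    rw [e, s, t]
    cases Nat.beq (A >>> n &&& 1) 0
    · obtain ⟨R, e1, e2, e3⟩ := ih (n :: c) (by omega) (List.forall_mem_cons.2 ⟨hn, hc⟩)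
      exact ⟨R, e1, e2, by rw [e3, sumL_cons]; simp; omega⟩
    · obtain ⟨R, e1, e2, e3⟩ := ih c (by omega) hc
      exact ⟨R, e1, e2, by rw [e3]; simp⟩

theorem dup_spec (d : ℕ) (N : ℕ → ℤ) (R : List ℕ) (hR : ∀ i ∈ R, i < d) :
    (∀ i ∈ dup R, i < d) ∧ sumL N (dup R) = 2 * sumL N R := by
  induction R with
  | nil => exact ⟨hR, rfl⟩
  | cons i R ih =>
    obtain ⟨h1, h2⟩ := List.forall_mem_cons.1 hR
    have e : dup (i :: R) = i :: i :: dup R := rfl
    rw [e, sumL_cons, sumL_cons, sumL_cons, (ih h2).2]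
    exact ⟨List.forall_mem_cons.2 ⟨h1, List.forall_mem_cons.2 ⟨h1, (ih h2).1⟩⟩, by omega⟩

theorem fd_tb {E s k : ℕ} (h : (fd E s).testBit k = true) :
    k < 5 ∧ E.testBit (6 * s + k) = true := by
  have e : fd E s = E >>> (6 * s) &&& (2 ^ 5 - 1) := rfl
  rw [e, Nat.testBit_and, Nat.testBit_shiftRight, Nat.testBit_two_pow_sub_one] at h
  simpa [and_comm] using h

theorem fd_lt32 (E s : ℕ) : fd E s < 32 := Nat.lt_succ_of_le Nat.and_le_right

theorem cls_lt (g : ℕ) : cls g < 5 := by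
  unfold cls
  omega

end Pool.Agent.FCT.Dis
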