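import Pool.Agent.Lib.MP_fe5cb4_co.FCT.Dis.Defs

/-!
Discharging: the checker of trees and tables.
-/

set_option autoImplicit false

namespace Pool.Agent.FCT.Dis

/-! All instances of an edge at once -/

/-- The dead inflow values (low 24 bits) and the open outflow values under the part `E`. -/
def dead (w E rp x on mk fl tp vl md : ℕ) : ℕ :=
  Nat.mod (Nat.land (Nat.mul (Nat.shiftRight (Nat.land (Nat.add (Nat.land (Nat.xor
    (Nat.add (Nat.lor (Nat.mul E rp) x) on) (Nat.mul E rp)) mk) fl) tp) w)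
    (nat_lit 68719476735)) vl) md

/-- The bound of the gain plus `cap`. -/
noncomputable def gain (w cap rp x on mk fl tp vl md tP tN E : ℕ) : ℕ :=
  sl (dead w E rp x on mk fl tp vl md) fun D =>
    Nat.add (Nat.sub cap (Nat.sub cap (Nat.sub tP (Nat.land D (nat_lit 16777215)))))
      (Nat.sub cap (Nat.sub tN (Nat.shiftRight D (nat_lit 24))))

/-- Blocks of width `W`. -/
noncomputable def pack (W : ℕ) (f : ℕ → ℕ) (l : List ℕ) (t : ℕ) : ℕ :=
  List.rec (motive := fun _ => ℕ) t (fun x _ ih => Nat.add (f x) (Nat.shiftLeft ih W)) l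

/-- The sum of the values. -/
noncomputable def tot (l : List ℕ) : ℕ :=
  List.rec (motive := fun _ => ℕ) 0 (fun x _ ih => Nat.add (x / 2 ^ 336) ih) l

/-- The instances are small. -/
noncomputable def small (w : ℕ) (l : List ℕ) : Bool :=
  List.rec (motive := fun _ => Bool) true
    (fun x _ ih => (x % 2 ^ 336).blt (2 ^ w) && (x / 2 ^ 336).blt 4096 && ih) l

/-- The numbers describe the lists `P` and `N`; `w = 30 d`. -/
noncomputable def vecOk (d : ℕ) (P N : List ℕ) (rp x on mk fl tp vl md tP tN : ℕ) : Bool :=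
  small (30 * d) P && small (30 * d) N && tP.beq (tot P) && tN.beq (tot N) &&
  tP.blt (2 ^ 24) && tN.blt (2 ^ 24) && md.beq (2 ^ (30 * d + 6) - 1) &&
  rp.beq (pack (30 * d + 6) (fun _ => 1) P (pack (30 * d + 6) (fun _ => 1) N 0)) &&
  x.beq (pack (30 * d + 6) (fun y => y % 2 ^ 336) P
    (pack (30 * d + 6) (fun y => y % 2 ^ 336) N 0)) &&
  on.beq (pack (30 * d + 6) (fun _ => (2 ^ (30 * d) - 1) / 63) P
    (pack (30 * d + 6) (fun _ => 0) N 0)) &&
  mk.beq (pack (30 * d + 6) (fun _ => (2 ^ (30 * d) - 1) / 63 * 32) P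
    (pack (30 * d + 6) (fun _ => 2 ^ (30 * d) - 1) N 0)) &&
  fl.beq (rp * (2 ^ (30 * d) - 1)) && tp.beq (rp * 2 ^ (30 * d)) &&
  vl.beq (pack (30 * d + 6) (fun y => y / 2 ^ 336) P
    (pack (30 * d + 6) (fun y => y / 2 ^ 336 * 2 ^ 24) N 0))

/-! Trees -/

/-- The four bits of a slot: two periods of the part and of its mirror image. -/
noncomputable def un (d s : ℕ) : ℕ :=
  bif s.blt (5 * d) then (1 + 2 ^ (30 * d)) * (2 ^ (6 * s) + 2 ^ (960 + 6 * ms d s)) else 0

/-- The sum of the bounds of the edges. -/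
noncomputable def hi (g : ℕ → ℕ) (rl E : ℕ) (R : List ℕ) : ℕ :=
  List.rec (motive := fun _ => ℕ) (nat_lit 1024) (fun i _ ih => Nat.add
    (sl (Nat.land (Nat.shiftRight E (Nat.mul (nat_lit 30) i)) rl) g) ih) R

/-- The budget plus `cap` for every edge. -/
noncomputable def lo (cap b : ℕ) (R : List ℕ) : ℕ :=
  List.rec (motive := fun _ => ℕ) b (fun _ _ ih => Nat.add cap ih) R

/-- Every edge twice. -/
noncomputable def dup (R : List ℕ) : List ℕ :=
  List.rec (motive := fun _ => List ℕ) [] (fun i _ ih => i :: i :: ih) R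

/-- Take one edge for every bit of `A`; the edge `i` has the bit `f i`. -/
noncomputable def pick (f : ℕ → ℕ) (k : ℕ → List ℕ → List ℕ → ℕ) (R : List ℕ) :
    ℕ → List ℕ → List ℕ → ℕ :=
  List.rec (motive := fun _ => ℕ → List ℕ → List ℕ → ℕ) k (fun i _ ih A c r =>
    sl (Nat.shiftLeft (nat_lit 1) (f i)) fun m => Bool.rec (motive := fun _ => ℕ)
      (sl (Nat.xor A m) fun A' => ih A' (i :: c) r) (ih A c (i :: r))
      (Nat.beq (Nat.land A m) (nat_lit 0))) R

/-- The part seen from the flag that the word `w` names. -/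
def view (E w : ℕ) : ℕ :=
  Nat.shiftRight E (Nat.mul (nat_lit 30) (Nat.land (Nat.shiftRight w (nat_lit 3)) (nat_lit 47)))

/-- Leaf: an impossible part. -/
noncomputable def oBad (k : ℕ) (tb : Tr) (E w L : ℕ) : ℕ :=
  sl (Nat.shiftRight w (nat_lit 9)) fun n => Bool.rec (motive := fun _ => ℕ) (nat_lit 0)
    (Bool.rec (motive := fun _ => ℕ) (nat_lit 0) (Nat.succ L)
      (Nat.beq (Nat.land (tb.get n) (Nat.shiftLeft (view E w) (nat_lit 24))) (tb.get n)))
    (Nat.ble (Nat.succ n) k)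

/-- Case distinction on the class of a slot. -/
noncomputable def oSplit (d : ℕ) (ih : ℕ → List ℕ → ℕ → ℕ → ℕ) (E : ℕ) (R : List ℕ)
    (b w L : ℕ) : ℕ :=
  sl (Nat.land (Nat.shiftRight w (nat_lit 3)) (nat_lit 63)) fun s =>
    sl (Nat.land (Nat.shiftRight w (nat_lit 9)) (nat_lit 31)) fun m =>
      Nat.rec (motive := fun _ => ℕ) (nat_lit 0)
        (fun L1 _ => sl (Nat.lor E (Nat.mul (Nat.xor (nat_lit 31) m) (un d s))) fun E2 =>
          ih E2 R b L1)
        (sl (Nat.lor E (Nat.mul m (un d s))) fun E1 => ih E1 R b L)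

/-- Leaf: the bound holds. -/
noncomputable def oBound (cap rl : ℕ) (g : ℕ → ℕ) (E : ℕ) (R : List ℕ) (b L : ℕ) : ℕ :=
  Bool.rec (motive := fun _ => ℕ) (nat_lit 0) (Nat.succ L) (Nat.ble (hi g rl E R) (lo cap b R))

/-- The number of an edge seen from the flag that the word `w` names. -/
noncomputable def emap (d w i : ℕ) : ℕ :=
  Nat.mod (Nat.add (Nat.mul i (Bool.rec (motive := fun _ => ℕ) (Nat.pred d) (nat_lit 1)
    (Nat.beq (Nat.land (Nat.shiftRight w (nat_lit 3)) (nat_lit 32)) (nat_lit 0))))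
    (Nat.sub (Nat.mul (nat_lit 16) d) (Nat.land (Nat.shiftRight w (nat_lit 3)) (nat_lit 15)))) d

/-- Use an earlier entry on some edges. -/
noncomputable def oLem (d k : ℕ) (tb : Tr) (ih : ℕ → List ℕ → ℕ → ℕ → ℕ) (E : ℕ) (R : List ℕ)
    (b w L : ℕ) : ℕ :=
  sl (Nat.shiftRight w (nat_lit 9)) fun n => Bool.rec (motive := fun _ => ℕ) (nat_lit 0)
    (sl (tb.get n) fun e =>
      Bool.rec (motive := fun _ => ℕ) (nat_lit 0)
        (Bool.rec (motive := fun _ => ℕ) (nat_lit 0)
          (pick (emap d (Nat.land w (nat_lit 511)))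
            (fun A _ r => Bool.rec (motive := fun _ => ℕ) (nat_lit 0)
              (sl (Nat.sub (Nat.add b (nat_lit 1024)) (Nat.land e (nat_lit 4095))) fun b' =>
                ih E r b' L) (Nat.beq A (nat_lit 0)))
            R (Nat.land (Nat.shiftRight e (nat_lit 12)) (nat_lit 4095)) [] [])
          (Nat.ble (Nat.land e (nat_lit 4095)) (Nat.add b (nat_lit 1024))))
        (Nat.beq (Nat.land (Nat.shiftRight e (nat_lit 24)) (view E w))
          (Nat.shiftRight e (nat_lit 24))))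
    (Nat.ble (Nat.succ n) k)

/-- Divide the edges and the budget. -/
noncomputable def oPart (ih : ℕ → List ℕ → ℕ → ℕ → ℕ) (E : ℕ) (R : List ℕ) (b w L : ℕ) : ℕ :=
  sl (Nat.shiftRight w (nat_lit 14)) fun b1 => Bool.rec (motive := fun _ => ℕ) (nat_lit 0)
    (pick (fun i => i) (fun _ c r => Nat.rec (motive := fun _ => ℕ) (nat_lit 0)
      (fun L1 _ => sl (Nat.sub (Nat.add b (nat_lit 1024)) b1) fun b2 => ih E r b2 L1)
      (ih E c b1 L)) R (Nat.land (Nat.shiftRight w (nat_lit 3)) (nat_lit 2047)) [] [])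
    (Nat.ble b1 (Nat.add b (nat_lit 1024)))

/-- Count every edge twice. -/
noncomputable def oDbl (ih : ℕ → List ℕ → ℕ → ℕ → ℕ) (E : ℕ) (R : List ℕ) (b L : ℕ) : ℕ :=
  Bool.rec (motive := fun _ => ℕ) (nat_lit 0)
    (sl (Nat.sub (Nat.add b b) (nat_lit 1023)) fun b' => ih E (dup R) b' L)
    (Nat.ble (nat_lit 512) b)

/-- One node of a tree: the word `w`, the rest `L` of the stream. -/
noncomputable def node (d cap rl : ℕ) (g : ℕ → ℕ) (k : ℕ) (tb : Tr)
    (ih : ℕ → List ℕ → ℕ → ℕ → ℕ) (E : ℕ) (R : List ℕ) (b w L : ℕ) : ℕ :=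
  Nat.rec (motive := fun _ => ℕ) (oSplit d ih E R b w L) (fun o _ =>
    Nat.rec (motive := fun _ => ℕ) (oBad k tb E w L) (fun o _ =>
      Nat.rec (motive := fun _ => ℕ) (oBound cap rl g E R b L) (fun o _ =>
        Nat.rec (motive := fun _ => ℕ) (oLem d k tb ih E R b w L) (fun o _ =>
          Nat.rec (motive := fun _ => ℕ) (oPart ih E R b w L) (fun o _ =>
            Nat.rec (motive := fun _ => ℕ) (oDbl ih E R b L) (fun _ _ =>
              Bool.rec (motive := fun _ => ℕ) (nat_lit 0) (Nat.succ L) (Nat.beq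
                (fd E (Nat.land (Nat.shiftRight w (nat_lit 3)) (nat_lit 63))) (nat_lit 31)))
              o) o) o) o) o) (Nat.land w (nat_lit 7))

/-- Check a tree; the result is the successor of the rest of the stream, or `0`. -/
noncomputable def go (d cap rl : ℕ) (g : ℕ → ℕ) (k : ℕ) (tb : Tr) (n : ℕ) :
    ℕ → List ℕ → ℕ → ℕ → ℕ :=
  Nat.rec (motive := fun _ => ℕ → List ℕ → ℕ → ℕ → ℕ) (fun _ _ _ _ => nat_lit 0)
    (fun _ ih E R b L => sl (Nat.land L (nat_lit 4294967295)) fun w =>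
      sl (Nat.shiftRight L (nat_lit 32)) fun L' => node d cap rl g k tb ih E R b w L') n

/-- The state of a part. -/
noncomputable def st (d Q n : ℕ) : ℕ :=
  Nat.rec (motive := fun _ => ℕ) (nat_lit 0)
    (fun s ih => Nat.lor (Nat.mul (fd Q s) (un d s)) ih) n

/-- The list of the edges of a bit set. -/
noncomputable def edges (A : ℕ) (k : List ℕ → ℕ) (n : ℕ) : List ℕ → ℕ :=
  Nat.rec (motive := fun _ => List ℕ → ℕ) k (fun i ih c => Bool.rec (motive := fun _ => ℕ)
    (ih (i :: c)) (ih c) (Nat.beq (Nat.land (Nat.shiftRight A i) (nat_lit 1)) (nat_lit 0))) n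

/-- The proof `L` of the entry `k`. -/
noncomputable def ent (d cap rl : ℕ) (g : ℕ → ℕ) (nq : ℕ) (tb qz : Tr) (k L : ℕ) : ℕ :=
  sl (tb.get k) fun e => sl (e.shiftRight 24) fun Q =>
    Bool.rec (motive := fun _ => ℕ)
      (sl ((L.land 4294967295).shiftRight 1) fun n => Bool.rec (motive := fun _ => ℕ) 0 1
        (Nat.ble n.succ nq && sl (qz.get n) fun x =>
          sl ((L.shiftRight 32).land 2097151) fun R => quiz d Q x R))
      (sl (st d Q (5 * d)) fun E => sl ((e.shiftRight 12).land 4095) fun A =>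
        sl (e.land 4095) fun b =>
          edges A (fun R => go d cap rl g k tb 250 E R b (L.shiftRight 1)) d [])
      ((L.land 1).beq 0)

/-- The proofs of the entries from `k` on; the result is the next entry, or `0`. -/
noncomputable def run (d cap rl : ℕ) (g : ℕ → ℕ) (nq : ℕ) (tb qz : Tr) (l : List ℕ) : ℕ → ℕ :=
  List.rec (motive := fun _ => ℕ → ℕ) (fun k => k) (fun L _ ih k =>
    Nat.rec (motive := fun _ => ℕ) 0 (fun _ _ => sl k.succ ih) (ent d cap rl g nq tb qz k L)) l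

/-! Statements -/

/-- job Vec -/
def StVec : Prop := ∀ (d cap : ℕ) (P N : List ℕ) (rp x on mk fl tp vl md tP tN : ℕ), 5 ≤ d →
  d ≤ 11 → vecOk d P N rp x on mk fl tp vl md tP tN = true → ∀ (F : ℕ → Prop) (E : ℕ),
  (∀ s, ¬ F (6 * s + 5) ∧ ∃ k < 5, ¬ F (6 * s + k)) → All F E → E < 2 ^ (30 * d) →
  min cap (wsum F P) + (cap - wsum F N) ≤ gain (30 * d) cap rp x on mk fl tp vl md tP tN E

/-- The function `g` bounds the gain on the edge `0`. -/
def GOk (rs : List ℕ) (d cap : ℕ) (g : ℕ → ℕ) : Prop :=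
  ∀ (V : Type) [Fintype V] (T : Tri V), MC T → Birk T → ∀ h a b, T.F h a b → T.deg h = d →
    ∀ E, All (fact T h a b) E → E < 2 ^ (30 * d) → net T rs cap h a b 0 + cap ≤ g E

/-- The entries below `k` are valid. -/
def Upto (rs : List ℕ) (d cap nq : ℕ) (tb qz : Tr) (k : ℕ) : Prop :=
  ∀ (V : Type) [Fintype V] (T : Tri V), MC T → Birk T → (∀ j < nq, XQ T (qz.get j)) →
    ∀ j < k, Valid T rs cap d (tb.get j)

/-- job Run -/
def StRun : Prop := ∀ (rs : List ℕ) (d cap rl : ℕ) (g : ℕ → ℕ) (nq : ℕ) (tb qz : Tr)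
  (l : List ℕ) (k k' : ℕ), d ≤ 11 → rl < 2 ^ (30 * d) → GOk rs d cap g →
  Upto rs d cap nq tb qz k → run d cap rl g nq tb qz l k = k' + 1 →
  Upto rs d cap nq tb qz (k' + 1)

end Pool.Agent.FCT.Dis
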