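import Pool.Agent.Lib.MP_fe5cb4_co.FCT.Dis.Rot

/-!
The total charge is positive, so the top claims cannot all hold.
-/

set_option autoImplicit false

namespace Pool.Agent.FCT.Dis

namespace Tot

variable {V : Type} {T : Tri V}

open Classical in
/-- The charge that moves from `s` to `t`. -/
noncomputable def flow (T : Tri V) (rs : List ℕ) (cap : ℕ) (s t : V) : ℤ :=
  if h : T.Adj s t then (min cap (raw2 T rs s t h.choose) : ℕ) else 0

theorem flow_eq (rs : List ℕ) (cap : ℕ) {s t u : V} (h : T.F s t u) :
    flow T rs cap s t = (min cap (raw2 T rs s t u) : ℕ) := by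
  rw [flow, dif_pos (T.adj12 h)]
  rcases T.two h (T.adj12 h).choose_spec with e | e
  · rw [e]
  · rw [e, raw2_opp rs h]

theorem sum_net [Fintype V] (M : MC T) (rs : List ℕ) (cap : ℕ) {h a b : V} (hF : T.F h a b) :
    ∑ i ∈ Finset.range (T.deg h), net T rs cap h a b i =
      ∑ v, (flow T rs cap v h - flow T rs cap h v) := by
  classical
  refine Finset.sum_of_injOn (T.rot h a b) (fun i hi j hj e => M.rot_inj hF i
    (Finset.mem_range.1 hi) j (Finset.mem_range.1 hj) e) (fun _ _ => Finset.mem_univ _)
    (fun v _ hv => ?_) fun i _ => ?_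
  · have n : ¬ T.Adj h v := fun k => hv (by
      obtain ⟨i, hi, e⟩ := M.rot_surj hF k
      exact ⟨i, Finset.mem_coe.2 (Finset.mem_range.2 hi), e⟩)
    rw [flow, flow, dif_neg n, dif_neg fun k => n k.symm, sub_zero]
  · rw [net, flow_eq rs cap (T.rot_F hF i), flow_eq rs cap (T.s12 (T.rot_F hF i))]

end Tot

open Tot in
theorem fin_thm : StFin := by
  intro V _ T M B rs cap S hS hc h6 hV
  have key : ∀ h, ∑ v, (flow T rs cap v h - flow T rs cap h v) ≤ S * ((T.deg h : ℤ) - 6) := by
    intro h
    obtain ⟨a, b, hF⟩ := M.flag h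
    rw [← sum_net M rs cap hF]
    have h5 := B.deg5 h
    rcases le_or_gt (T.deg h) 11 with l | l
    · have p : 2 ^ T.deg h ≤ 2 ^ 11 := Nat.pow_le_pow_right two_pos l
      have a1 : S * 5 ≤ S * T.deg h := Nat.mul_le_mul_left S h5
      have a2 : S * T.deg h ≤ S * 11 := Nat.mul_le_mul_left S l
      have k := hV _ h5 l h a b hF rfl fun n hn => by
        rw [Nat.div_eq_of_lt (by omega), Nat.zero_testBit] at hn
        cases hn
      rw [show ((2 ^ T.deg h - 1) * 4096 + (1024 + S * T.deg h - S * 6)) / 2 ^ 12 % 4096 =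
          2 ^ T.deg h - 1 by omega,
        show ((2 ^ T.deg h - 1) * 4096 + (1024 + S * T.deg h - S * 6)) % 4096 =
          1024 + S * T.deg h - S * 6 by omega, sumA, Finset.sum_congr rfl fun i hi => if_pos (by
            rw [Nat.testBit_two_pow_sub_one, decide_eq_true (Finset.mem_range.1 hi)]),
        Nat.cast_sub (by omega)] at k
      push_cast at k
      linarith
    · have k : ∑ i ∈ Finset.range (T.deg h), net T rs cap h a b i ≤ T.deg h * cap := by
        have := Finset.sum_le_card_nsmul (Finset.range (T.deg h)) (net T rs cap h a b) cap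
          fun i _ => by unfold net; omega
        rwa [Finset.card_range, nsmul_eq_mul] at this
      have a1 : (12 : ℤ) ≤ T.deg h := by exact_mod_cast l
      have a2 : 2 * (cap : ℤ) ≤ S := by exact_mod_cast hc
      have a3 : (0 : ℤ) ≤ S := Nat.cast_nonneg S
      nlinarith
  have t := Finset.sum_le_sum (s := Finset.univ) fun h _ => key h
  simp only [Finset.sum_sub_distrib, ← Finset.mul_sum] at t
  rw [Finset.sum_comm, sub_self, Finset.sum_const, Finset.card_univ, nsmul_eq_mul] at t
  have e : ((∑ v, T.deg v : ℕ) : ℤ) < (6 * Fintype.card V : ℕ) := Nat.cast_lt.2 M.euler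
  push_cast at e
  have s : (0 : ℤ) < S := Nat.cast_pos.2 hS
  nlinarith

end Pool.Agent.FCT.Dis
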