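import Pool.Agent.Lib.MP_fe5cb4_co.FCT.Basic

/-!
Rotations in both directions, and the neighbourhood of a hub.
-/

set_option autoImplicit false

namespace Pool.Agent.FCT

variable {V : Type} [Fintype V] {T : Tri V} {a b c : V}

theorem MC.rot_congr (M : MC T) (h : T.F a b c) {i j : ℕ} (e : i % T.deg a = j % T.deg a) :
    T.rot a b c i = T.rot a b c j := (M.rot_eq h).2 e

/-- The rotation in the other direction. -/
theorem MC.rot_rev (M : MC T) (h : T.F a b c) (k j : ℕ) (e : (k + j) % T.deg a = 0) :
    T.rot a b (T.opp a b c) k = T.rot a b c j := by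
  have p := M.deg_pos a
  induction k using Nat.twoStepInduction generalizing j with
  | zero => exact M.rot_congr h (i := 0) (by rw [Nat.zero_add] at e; rw [e, Nat.zero_mod])
  | one =>
    have e1 : T.rot a b c (j + 1) = b := M.rot_congr h (j := 0) (by
      rw [Nat.add_comm, e, Nat.zero_mod])
    have e2 : T.rot a b c (j + 2) = c := M.rot_congr h (j := 1) (by
      rw [show j + 2 = 1 + j + 1 by omega, Nat.add_mod, e, Nat.zero_add, Nat.mod_mod])
    have := T.rot_back h j
    rw [e1, e2] at this
    exact this
  | more k h0 h1 =>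
    rw [T.rot_two, h0 (j + 2) (by rw [← e]; congr 1; omega),
      h1 (j + 1) (by rw [← e]; congr 1; omega)]
    exact T.rot_back h j

omit [Fintype V] in
/-- One step forward in a rotation. -/
theorem Tri.opp_fwd (T : Tri V) (a b c : V) (k : ℕ) :
    T.opp a (T.rot a b c (k + 1)) (T.rot a b c k) = T.rot a b c (k + 2) := rfl

end Pool.Agent.FCT
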