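import Pool.Agent.Lib.MP_fe5cb4_co.FCT.Dis.Quiz
import Pool.Agent.Lib.MP_fe5cb4_co.FCT.Dev

/-!
Soundness of the instances of rules.
-/

set_option autoImplicit false
set_option exponentiation.threshold 1000

namespace Pool.Agent.FCT.Dis

/-- The number `n` decides `P`: `0` is false, `1` is unknown, `E + 2` is the part `E`. -/
def Dec (F : ℕ → Prop) (P : Prop) (n : ℕ) : Prop := (n = 0 → ¬ P) ∧ (2 ≤ n → (P ↔ All F (n - 2)))

theorem Dec.iff {F : ℕ → Prop} {P Q : Prop} {n : ℕ} (h : Dec F P n) (e : Q ↔ P) : Dec F Q n := by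
  rwa [propext e]

theorem cls_five (g : ℕ) : cls g < 5 := by
  unfold cls
  omega

theorem bit31 (x k c : ℕ) (h : c < 5) :
    ((x.shiftRight k).land 31).testBit c = x.testBit (k + c) := by
  have : (x.shiftRight k).land 31 = (x >>> k) &&& (2 ^ 5 - 1) := rfl
  rw [this, Nat.testBit_and, Nat.testBit_shiftRight, Nat.testBit_two_pow_sub_one]
  simp [h]

variable {V : Type} {T : Tri V} {h a b : V} {d : ℕ}

theorem all_lor {E m y : ℕ} (hm : m < 2 ^ 5) : All (fact T h a b) (E.lor (m.shiftLeft (6 * y))) ↔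
    All (fact T h a b) E ∧ m.testBit (cls (T.deg (vtx T h a b y))) = false := by
  have e : ∀ n, (E.lor (m.shiftLeft (6 * y))).testBit n =
      (E.testBit n || (decide (n ≥ 6 * y) && m.testBit (n - 6 * y))) := fun n => by
    rw [← Nat.testBit_shiftLeft, ← Nat.testBit_or]
    rfl
  have c := cls_five (T.deg (vtx T h a b y))
  refine ⟨fun A => ⟨fun n t => A n (by simp [t]), Bool.eq_false_iff.2 fun t => ?_⟩,
    fun A n t => ?_⟩
  · have := (A (6 * y + cls (T.deg (vtx T h a b y))) (by simp [t])).2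
    rw [show (6 * y + cls (T.deg (vtx T h a b y))) / 6 = y by omega] at this
    omega
  · rw [e, Bool.or_eq_true, Bool.and_eq_true, decide_eq_true_eq] at t
    rcases t with t | ⟨t1, t2⟩
    · exact A.1 n t
    have l : n - 6 * y < 5 := by_contra fun l => by
      rw [Nat.testBit_lt_two_pow (hm.trans_le (Nat.pow_le_pow_right two_pos (not_lt.1 l)))] at t2
      exact Bool.false_ne_true t2
    refine ⟨by omega, fun k => ?_⟩
    rw [show n / 6 = y by omega, show n % 6 = n - 6 * y by omega] at k
    rw [← k, A.2] at t2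
    exact Bool.false_ne_true t2

theorem cnd_spec (hd : T.deg h = d) {m y E : ℕ} (hm : m < 2 ^ 5) {v : V} {P : Prop} {k : ℕ → ℕ}
    (hv : All (fact T h a b) E → y ≠ 127 → reg T h a b y = v)
    (hk : ∀ E', (All (fact T h a b) E' → All (fact T h a b) E) →
      Dec (fact T h a b) (All (fact T h a b) E' ∧ P) (k E')) :
    Dec (fact T h a b) (All (fact T h a b) E ∧ m.testBit (cls (T.deg v)) = false ∧ P)
      (cnd d m y E k) := by
  unfold cnd
  by_cases m0 : m = 0
  · subst m0
    exact (hk E id).iff (by simp)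
  rw [beq_ff m0, cond_false]
  by_cases y6 : y = 126
  · subst y6
    have e : All (fact T h a b) E → cls (T.deg v) = cls d := fun A => by
      rw [← hv A (by omega), ← hd]
      rfl
    have e1 : ((m.shiftRight (cls d)).land 1).beq 0 = !m.testBit (cls d) := by
      have : (m.shiftRight (cls d)).land 1 = m / 2 ^ cls d % 2 := by
        rw [shr_eq]
        exact Nat.and_one_is_mod _
      rw [this, Nat.testBit_eq_decide_div_mod_eq]
      rcases Nat.mod_two_eq_zero_or_one (m / 2 ^ cls d) with t | t <;> rw [t] <;> rfl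
    rw [show Nat.beq 126 126 = true from rfl, cond_true, e1]
    cases t : m.testBit (cls d)
    · exact (hk E id).iff (and_congr_right fun A => and_iff_right (e A ▸ t))
    · exact ⟨fun _ u => by simp [e u.1, t] at u, fun u => absurd u (Nat.not_succ_le_zero 1)⟩
  rw [beq_ff y6, cond_false]
  by_cases y7 : y = 127
  · subst y7
    exact ⟨fun u => absurd u one_ne_zero, fun u => absurd u (Nat.not_succ_le_self 1)⟩
  rw [beq_ff y7, cond_false, sl_eq]
  refine (hk _ fun A => ((all_lor hm).1 A).1).iff ?_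
  rw [all_lor hm, and_assoc]
  exact and_congr_right fun A => by rw [← hv A y7, reg, if_neg y6]

theorem irun_spec (hd : T.deg h = d) (hO : ∀ E p q r : ℕ, All (fact T h a b) E →
      oppS (5 * d) E p q r ≠ 127 → oppS (5 * d) E p q r < 127 ∧ reg T h a b (oppS (5 * d) E p q r) =
        T.opp (reg T h a b p) (reg T h a b q) (reg T h a b r)) (z : ℕ → V)
    (l : List (ℕ × ℕ × ℕ)) : ∀ x k R E : ℕ,
    (∀ j o, l[j]? = some o → o.1 < k + j ∧ o.2.1 < k + j ∧ o.2.2 < k + j ∧
      z (k + j) = T.opp (z o.1) (z o.2.1) (z o.2.2)) →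
    (All (fact T h a b) E → R < 2 ^ (7 * k) ∧ ∀ i < k, rd R i ≠ 127 → reg T h a b (rd R i) = z i) →
    Dec (fact T h a b) (All (fact T h a b) E ∧
      ∀ j < l.length, x.testBit (5 * j + cls (T.deg (z (k + j)))) = false)
      (irun d l x (7 * k) R E) := by
  induction l with
  | nil => exact fun x k R E _ _ => ⟨fun u => absurd u (Nat.succ_ne_zero _), fun _ => by simp [irun]⟩
  | cons o l ih =>
    intro x k R E hz hR
    obtain ⟨y, hy⟩ : ∃ y, y = bif (rd R o.1).beq 127 || (rd R o.2.1).beq 127 ||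
      (rd R o.2.2).beq 127 then 127 else oppS (5 * d) E (rd R o.1) (rd R o.2.1) (rd R o.2.2) :=
      ⟨_, rfl⟩
    have e : irun d (o :: l) x (7 * k) R E = cnd d (x.land 31) y E
        (irun d l (x.shiftRight 5) (7 * (k + 1)) (R.lor (y.shiftLeft (7 * k)))) := by
      rw [hy]
      rfl
    have v : All (fact T h a b) E → y ≠ 127 → y < 127 ∧ reg T h a b y = z k := fun A n => by
      obtain ⟨z1, z2, z3, z4⟩ := hz 0 o rfl
      by_cases t : rd R o.1 = 127 ∨ rd R o.2.1 = 127 ∨ rd R o.2.2 = 127
      · rcases t with t | t | t <;> simp [t] at hy <;> exact absurd hy n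
      push Not at t
      rw [beq_ff t.1, beq_ff t.2.1, beq_ff t.2.2] at hy
      replace hy : y = oppS (5 * d) E (rd R o.1) (rd R o.2.1) (rd R o.2.2) := hy
      have := hO E _ _ _ A (hy ▸ n)
      rw [← hy, (hR A).2 _ z1 t.1, (hR A).2 _ z2 t.2.1, (hR A).2 _ z3 t.2.2] at this
      exact ⟨this.1, this.2.trans z4.symm⟩
    rw [e]
    refine (cnd_spec hd (Nat.and_lt_two_pow _ (by decide : 31 < 2 ^ 5)) (fun A n => (v A n).2)
      fun E' u => ih (x.shiftRight 5) (k + 1) _ E' (fun j o' t => ?_) fun A => ?_).iff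
      (and_congr_right fun _ => ?_)
    · rw [Nat.add_right_comm]
      exact hz (j + 1) o' t
    · have y7 : y < 2 ^ 7 := by
        by_cases n : y = 127
        · omega
        · have := (v (u A) n).1
          omega
      obtain ⟨r1, r2⟩ := hR (u A)
      refine ⟨lor_lt r1 y7, fun i hi => ?_⟩
      rcases Nat.lt_succ_iff_lt_or_eq.1 hi with t | rfl
      · rw [rd_lo t]
        exact r2 i t
      · rw [rd_top r1 y7]
        exact fun n => (v (u A) n).2
    · rw [List.length_cons, Nat.forall_lt_succ_left]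
      refine and_congr ?_ (forall₂_congr fun j _ => ?_)
      · rw [← bit31 x 0 _ (cls_five _)]
        simp
      · rw [Nat.add_right_comm k 1 j, show x.shiftRight 5 = x >>> 5 from rfl,
          Nat.testBit_shiftRight, Nat.mul_succ, Nat.add_comm (5 * j) 5, Nat.add_assoc 5]
        rfl

theorem rp_lt : ∀ j < 14, ∀ o, RP[j]? = some o → o.1 < 3 + j ∧ o.2.1 < 3 + j ∧ o.2.2 < 3 + j := by
  decide

theorem inst_thm (hO : StOpp) : StInst := by
  intro V _ T M B h a b d f hd h11 x p q r hp hq hr _
  have l : ∀ k, (x.shiftRight k).land 31 < 2 ^ 5 := fun k =>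
    Nat.and_lt_two_pow _ (by decide : 31 < 2 ^ 5)
  have s : ∀ R i, rd R i = R / 2 ^ (7 * i) % 128 := fun R i => by
    rw [← shr_eq]
    exact Nat.and_two_pow_sub_one_eq_mod _ 7
  refine Dec.iff (cnd_spec hd (l 12) (fun _ _ => rfl) fun E _ => cnd_spec hd (l 17) (fun _ _ => rfl)
    fun E _ => cnd_spec hd (l 22) (fun _ _ => rfl) fun E _ => irun_spec hd
      (fun E p q r A n => ⟨(hO V T M B h a b d f hd h11 E p q r A n).1,
        (hO V T M B h a b d f hd h11 E p q r A n).2.2⟩)
      (devF T RP (reg T h a b p) (reg T h a b q) (reg T h a b r)) RP _ 3 _ E (fun j o t => ?_)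
      fun _ => ⟨by omega, fun i hi _ => ?_⟩) ?_
  · obtain ⟨k1, k2, k3⟩ := rp_lt j (List.getElem?_eq_some_iff.1 t).1 o t
    exact ⟨k1, k2, k3, devF_op T RP _ _ _ j o t k1 k2 k3⟩
  · rw [s]
    interval_cases i
    · rw [devF_zero]
      congr 1
      omega
    · rw [devF_one]
      congr 1
      omega
    · rw [devF_two]
      congr 1
      omega
  · rw [RH, Nat.forall_lt_succ_left, Nat.forall_lt_succ_left, Nat.forall_lt_succ_left, devF_zero,
      devF_one, devF_two, bit31 _ _ _ (cls_five _), bit31 _ _ _ (cls_five _),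
      bit31 _ _ _ (cls_five _), and_iff_right (a := All _ 0) fun n t => by simp at t]
    refine and_congr_right fun _ => and_congr_right fun _ => and_congr_right fun _ =>
      forall₂_congr fun j _ => ?_
    rw [show x.shiftRight 27 = x >>> 27 from rfl, Nat.testBit_shiftRight, Nat.add_comm 3 j,
      show 12 + 5 * (j + 1 + 1 + 1) = 27 + 5 * j by omega, Nat.add_assoc 27]

theorem hi_add {F : ℕ → Prop} {y : ℕ} (hy : y < 2 ^ 336) (v : ℕ) :
    (HI F (y + v * 2 ^ 336) ↔ All F y) ∧ (y + v * 2 ^ 336) / 2 ^ 336 = v := by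
  have e : ∀ n, y.testBit n = (decide (n < 336) && (y + v * 2 ^ 336).testBit n) := fun n => by
    rw [← Nat.testBit_mod_two_pow, Nat.add_mul_mod_self_right, Nat.mod_eq_of_lt hy]
  refine ⟨⟨fun H n t => ?_, fun H n hn t => H n (by rw [e, t, decide_eq_true hn]; rfl)⟩, ?_⟩
  · rw [e, Bool.and_eq_true, decide_eq_true_eq] at t
    exact H n t.1 t.2
  · rw [Nat.add_mul_div_right _ _ (Nat.two_pow_pos _), Nat.div_eq_of_lt hy, Nat.zero_add]

theorem insts_spec {F : ℕ → Prop} {p q r : ℕ} {s t u : V}
    (H : ∀ x, Dec F (RH T x s t u) (inst d x p q r)) (c : List ℕ) (rs : List ℕ) :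
    raw T rs s t u + wsum F c ≤ wsum F (insts d true p q r c rs) ∧
      wsum F (insts d false p q r c rs) ≤ raw T rs s t u + wsum F c := by
  classical
  induction rs with
  | nil => simp [raw, insts]
  | cons x rs ih =>
    have e : ∀ g, insts d g p q r c (x :: rs) = bif (inst d x p q r).beq 0 then insts d g p q r c rs
      else bif (inst d x p q r).beq 1 || (2 ^ 336).ble (inst d x p q r) then
        bif g then (x % 4096 * 2 ^ 336) :: insts d g p q r c rs else insts d g p q r c rs
      else (inst d x p q r - 2 + x % 4096 * 2 ^ 336) :: insts d g p q r c rs := fun _ => rfl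
    have e1 : raw T (x :: rs) s t u = (if RH T x s t u then x % 4096 else 0) + raw T rs s t u := by
      simp [raw]
    have e2 : ∀ y < 2 ^ 336, ∀ l, wsum F ((y + x % 4096 * 2 ^ 336) :: l) =
        (if All F y then x % 4096 else 0) + wsum F l := fun y hy l => by
      simp only [wsum, List.map_cons, List.sum_cons, (hi_add hy _).1, (hi_add (F := F) hy _).2]
    obtain ⟨k0, k2⟩ := H x
    rw [e, e, e1]
    generalize inst d x p q r = y at k0 k2
    by_cases y0 : y = 0
    · rw [if_neg (k0 y0), y0, Nat.zero_add]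
      exact ih
    rw [beq_ff y0, cond_false, cond_false]
    by_cases y1 : (y.beq 1 || (2 ^ 336).ble y) = true
    · have := e2 0 (Nat.two_pow_pos _) (insts d true p q r c rs)
      rw [if_pos (show All F 0 from fun n t => by simp at t), Nat.zero_add] at this
      rw [y1, cond_true, cond_true, cond_true, cond_false, this]
      split_ifs <;> omega
    · rw [Bool.eq_false_iff.2 y1, cond_false, cond_false]
      simp only [Bool.or_eq_true, Nat.beq_eq, Nat.ble_eq, not_or, not_le] at y1
      rw [e2 _ (by omega), e2 _ (by omega), if_congr (k2 (by omega)) rfl rfl]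
      omega

theorem ins_thm (hI : StInst) : StIns := by
  intro V _ T M B h a b d f hd h11 rs
  have h5 := hd ▸ B.deg5 h
  have r0 : reg T h a b 0 = a := rfl
  have r1 : reg T h a b 5 = b := rfl
  have r2 : reg T h a b 126 = h := rfl
  have r3 : reg T h a b (5 * (d - 1)) = T.opp h a b := by
    have e := T.rot_back f (d - 1)
    rw [show d - 1 + 1 = 0 + T.deg h by omega, show d - 1 + 2 = 1 + T.deg h by omega, M.rot_per f,
      M.rot_per f] at e
    rw [reg, if_neg (by omega), vtx0, ← e]
    rfl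
  have I := fun p q r hp hq hr t x => hI V T M B h a b d f hd h11 x p q r hp hq hr t
  have i1 := I 0 126 5 (by omega) (by omega) (by omega)
  have i2 := I 0 126 (5 * (d - 1)) (by omega) (by omega) (by omega)
  have i3 := I 126 0 5 (by omega) (by omega) (by omega)
  have i4 := I 126 0 (5 * (d - 1)) (by omega) (by omega) (by omega)
  rw [r0, r2] at i1 i2 i3 i4
  rw [r1] at i1 i3
  rw [r3] at i2 i4
  have j2 := (insts_spec (i2 (T.s12 (T.opp_F f))) [] rs).1
  have j4 := (insts_spec (i4 (T.opp_F f)) [] rs).2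
  have w : wsum (fact T h a b) [] = 0 := rfl
  refine ⟨le_trans ?_ (insts_spec (i1 (T.s12 f)) _ rs).1, (insts_spec (i3 f) _ rs).2.trans ?_⟩
  · rw [raw2, T.opp_comm f]
    omega
  · rw [raw2]
    omega

end Pool.Agent.FCT.Dis
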