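import Pool.Agent.Lib.MP_fe5cb4_co.FCT.Dis.Defs
import Pool.Agent.Lib.MP_fe5cb4_co.FCT.Dis.Geo

/-!
Soundness of the computation of `opp` on slots.
-/

set_option autoImplicit false

namespace Pool.Agent.FCT.Dis

theorem sl_eq {α : Type} (x : ℕ) (f : ℕ → α) : sl x f = f x := rfl

theorem beq_ff {x y : ℕ} (h : x ≠ y) : Nat.beq x y = false :=
  Bool.eq_false_iff.2 fun e => h (Nat.eq_of_beq_eq_true e)

/-- The relative positions round a spoke of known degree. -/
def cyc (g : ℕ) : List ℕ :=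
  if g = 0 then [15, 0, 1, 6, 10] else if g = 1 then [15, 0, 1, 8, 6, 10]
  else if g = 2 then [15, 0, 1, 7, 9, 6, 10] else [15, 0, 1, 7, 8, 9, 6, 10]

/-- The triples of consecutive positions round a spoke. -/
def trp (g : ℕ) : List (ℕ × ℕ × ℕ) :=
  if g < 4 then (List.range (5 + g)).map fun r =>
    ((cyc g).getD r 0, (cyc g).getD ((r + 1) % (5 + g)) 0, (cyc g).getD ((r + 2) % (5 + g)) 0)
  else [(10, 15, 0), (15, 0, 1), (0, 1, 7), (9, 6, 10), (6, 10, 15)]

set_option synthInstance.maxSize 4096 in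
theorem tt_spec : ∀ g < 5, ∀ p < 16, ∀ q < 16, tt g p q ≤ 15 →
    p ≠ 14 ∧ q ≠ 14 ∧ ((q, p, tt g p q) ∈ trp g ∨ (tt g p q, p, q) ∈ trp g) := by
  decide +kernel

theorem kind_spec : ∀ f < 32, kind f < 5 ∧ (kind f < 4 → ∀ k < 5, k ≠ kind f → f.testBit k = true) := by
  decide +kernel

theorem fd_lt (E s : ℕ) : fd E s < 32 := Nat.and_lt_two_pow _ (by decide : 31 < 2 ^ 5)

theorem fd_bit {E s k : ℕ} (h : (fd E s).testBit k = true) : E.testBit (6 * s + k) = true := by
  have : fd E s = (E >>> (6 * s)) &&& 31 := rfl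
  rw [this, Nat.testBit_and, Nat.testBit_shiftRight, Bool.and_eq_true] at h
  exact h.1

theorem mod_five {d : ℕ} (h5 : 5 ≤ d) (h11 : d ≤ 11) {s t : ℕ} (e : s % (5 * d) = t % (5 * d)) :
    s % 5 = t % 5 ∧ s / 5 % d = t / 5 % d ∧ (s / 5 + 1) % d = (t / 5 + 1) % d := by
  interval_cases d <;> omega

variable {V : Type} {T : Tri V} {h a b : V} {d : ℕ}

theorem vtx0 (j : ℕ) : vtx T h a b (5 * j) = T.rot h a b j := by
  simp [vtx]

theorem vtx1 (j : ℕ) : vtx T h a b (5 * j + 1) =
    T.rot (T.rot h a b j) h (T.rot h a b (j + 1)) 2 := by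
  have e1 : (5 * j + 1) % 5 = 1 := by omega
  have e2 : (5 * j + 1) / 5 = j := by omega
  simp [vtx, e1, e2]

theorem vtx2 (j : ℕ) : vtx T h a b (5 * j + 2) =
    T.rot (T.rot h a b j) h (T.opp h (T.rot h a b j) (T.rot h a b (j + 1))) 3 := by
  have e1 : (5 * j + 2) % 5 = 2 := by omega
  have e2 : (5 * j + 2) / 5 = j := by omega
  simp [vtx, e1, e2]

theorem vtx3 (j : ℕ) (e : T.deg (T.rot h a b j) % 2 = 0) : vtx T h a b (5 * j + 3) =
    T.rot (T.rot h a b j) h (T.opp h (T.rot h a b j) (T.rot h a b (j + 1)))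
      (T.deg (T.rot h a b j) / 2) := by
  have e1 : (5 * j + 3) % 5 = 3 := by omega
  have e2 : (5 * j + 3) / 5 = j := by omega
  simp [vtx, e1, e2, e]

theorem vtx4 (j : ℕ) : vtx T h a b (5 * j + 4) =
    T.rot (T.rot h a b j) h (T.rot h a b (j + 1)) 3 := by
  have e1 : (5 * j + 4) % 5 = 4 := by omega
  have e2 : (5 * j + 4) / 5 = j := by omega
  simp [vtx, e1, e2]

theorem fact_bit {E s k : ℕ} (A : All (fact T h a b) E) (hk : k < 5)
    (e : (fd E s).testBit k = true) : cls (T.deg (vtx T h a b s)) ≠ k := by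
  have := (A _ (fd_bit e)).2
  rwa [show (6 * s + k) / 6 = s by omega, show (6 * s + k) % 6 = k by omega] at this

theorem deg_of_bits {E s g : ℕ} (B : Birk T) (A : All (fact T h a b) E) (hg : g < 4)
    (e : ∀ k < 5, k ≠ g → (fd E s).testBit k = true) : T.deg (vtx T h a b s) = 5 + g := by
  have h5 := B.deg5 (vtx T h a b s)
  by_contra n
  refine fact_bit A (k := cls (T.deg (vtx T h a b s))) ?_ (e _ ?_ ?_) rfl <;>
    simp only [cls] <;> omega

/-- `x y z` are consecutive neighbours of `v`. -/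
def T3 (T : Tri V) (v x y z : V) : Prop := T.F v y x ∧ z = T.opp v y x

theorem T3.symm {v x y z : V} (t : T3 T v x y z) : T3 T v z y x := by
  obtain ⟨f, rfl⟩ := t
  exact ⟨T.opp_F f, (T.opp_opp f).symm⟩

theorem t3_rot {v x y : V} (f : T.F v x y) (k : ℕ) :
    T3 T v (T.rot v x y k) (T.rot v x y (k + 1)) (T.rot v x y (k + 2)) :=
  ⟨T.s23 (T.rot_F f k), rfl⟩

variable [Fintype V]

theorem vtx_mod (M : MC T) (f : T.F h a b) (hd : T.deg h = d) (h5 : 5 ≤ d) (h11 : d ≤ 11)
    {s t : ℕ} (e : s % (5 * d) = t % (5 * d)) : vtx T h a b s = vtx T h a b t := by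
  obtain ⟨e1, e2, e3⟩ := mod_five h5 h11 e
  have k2 := M.rot_congr f (hd ▸ e2)
  have k3 := M.rot_congr f (hd ▸ e3)
  simp only [vtx, e1, k2, k3]

/-- The vertex at a relative position. -/
def rv (T : Tri V) (h a b : V) (d j y : ℕ) : V :=
  if y = 15 then h else vtx T h a b (5 * j + 5 * d + y - 5)

theorem trp_sound (M : MC T) (f : T.F h a b) (hd : T.deg h = d) (h5 : 5 ≤ d) (h11 : d ≤ 11)
    (j g : ℕ) (hg : g < 4 → T.deg (T.rot h a b j) = 5 + g) {x y z : ℕ} (m : (x, y, z) ∈ trp g) :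
    T3 T (T.rot h a b j) (rv T h a b d j x) (rv T h a b d j y) (rv T h a b d j z) := by
  have f1 := T.rot_F f j
  have f2 := T.s12 f1
  have f3 := T.s12 (T.opp_F f1)
  have e1 : T.rot h a b (j + d - 1 + 1) = T.rot h a b j := M.rot_congr f (by
    rw [hd, Nat.sub_add_cancel (by omega), Nat.add_mod_right])
  have e2 : T.rot h a b (j + d - 1 + 2) = T.rot h a b (j + 1) := M.rot_congr f (by
    rw [hd, show j + d - 1 + 2 = j + 1 + d by omega, Nat.add_mod_right])
  have e3 := T.rot_back f (j + d - 1)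
  rw [e1, e2] at e3
  have mid : ∀ t < 10, rv T h a b d j (5 + t) = vtx T h a b (5 * j + t) := by
    intro t ht
    rw [rv, if_neg (by omega)]
    exact vtx_mod M f hd h5 h11 (by
      rw [show 5 * j + 5 * d + (5 + t) - 5 = 5 * j + t + 5 * d by omega, Nat.add_mod_right])
  have w15 : rv T h a b d j 15 = h := if_pos rfl
  have w0 : rv T h a b d j 0 = T.opp h (T.rot h a b j) (T.rot h a b (j + 1)) := by
    rw [rv, if_neg (by omega), show 5 * j + 5 * d + 0 - 5 = 5 * (j + d - 1) by omega, vtx0, e3]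
  have w1 : rv T h a b d j 1 =
      T.rot (T.rot h a b j) h (T.opp h (T.rot h a b j) (T.rot h a b (j + 1))) 2 := by
    rw [rv, if_neg (by omega), show 5 * j + 5 * d + 1 - 5 = 5 * (j + d - 1) + 1 by omega, vtx1, e1,
      ← e3]
    exact T.opp_comm (T.s23 f3)
  have w6 := (mid 1 (by omega)).trans (vtx1 j)
  have w7 := (mid 2 (by omega)).trans (vtx2 j)
  have w8 := fun e => (mid 3 (by omega)).trans (vtx3 j e)
  have w9 := (mid 4 (by omega)).trans (vtx4 j)
  have w10 : rv T h a b d j 10 = T.rot h a b (j + 1) := (mid 5 (by omega)).trans (vtx0 (j + 1))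
  have eo : T.rot h a b (j + 1) =
      T.opp (T.rot h a b j) h (T.opp h (T.rot h a b j) (T.rot h a b (j + 1))) := by
    rw [T.opp_comm (T.opp_F f1), T.opp_opp f1]
  generalize T.rot h a b j = v at *
  generalize T.rot h a b (j + 1) = n at *
  generalize T.opp h v n = p at *
  have rev : ∀ k i, (k + i) % T.deg v = 0 → T.rot v h n k = T.rot v h p i := fun k i e =>
    eo ▸ M.rot_rev f3 k i e
  unfold trp at m
  split_ifs at m with g4
  · have dg := hg g4
    have key : ∀ r < 5 + g, rv T h a b d j ((cyc g).getD r 0) = T.rot v h p r := by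
      intro r hr
      have r1 := rev 1 (4 + g) (by rw [dg]; interval_cases g <;> rfl)
      have r2 := rev 2 (3 + g) (by rw [dg]; interval_cases g <;> rfl)
      have r3 := rev 3 (2 + g) (by rw [dg]; interval_cases g <;> rfl)
      rw [dg] at w8
      interval_cases g <;> interval_cases r <;>
        first
          | exact w15
          | exact w0
          | exact w1
          | exact w7
          | exact w8 rfl
          | exact w6.trans r2
          | exact w9.trans r3
          | exact w10.trans r1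
    obtain ⟨r, hr, e⟩ := List.mem_map.1 m
    obtain ⟨rfl, rfl, rfl⟩ : _ ∧ _ ∧ _ := by simpa only [Prod.mk.injEq] using e
    have lt : ∀ i, i % (5 + g) < 5 + g := fun i => Nat.mod_lt _ (by omega)
    rw [key r (List.mem_range.1 hr), key _ (lt _), key _ (lt _), ← dg, M.rot_mod f3, M.rot_mod f3]
    exact t3_rot f3 r
  · simp only [List.mem_cons, Prod.mk.injEq, List.not_mem_nil, or_false] at m
    rcases m with ⟨rfl, rfl, rfl⟩ | ⟨rfl, rfl, rfl⟩ | ⟨rfl, rfl, rfl⟩ | ⟨rfl, rfl, rfl⟩ |
      ⟨rfl, rfl, rfl⟩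
    · rw [w10, w15, w0]
      exact T3.symm ⟨f3, eo⟩
    · rw [w15, w0, w1]
      exact t3_rot f3 0
    · rw [w0, w1, w7]
      exact t3_rot f3 1
    · rw [w9, w6, w10]
      exact (t3_rot f2 1).symm
    · rw [w6, w10, w15]
      exact (t3_rot f2 0).symm

theorem rel_spec (D a x : ℕ) : rel D a x = if x = 126 then 15 else
    14 - (14 - (x + D + 5 - a) % D) := by
  unfold rel
  by_cases e : x = 126
  · subst e; rfl
  · rw [if_neg e, show Nat.beq x 126 = false from beq_ff e]
    rfl

theorem rel_lt (D a x : ℕ) : rel D a x < 16 := by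
  rw [rel_spec]
  split_ifs <;> omega

theorem reg_rel (M : MC T) (f : T.F h a b) (hd : T.deg h = d) (h5 : 5 ≤ d) (h11 : d ≤ 11)
    {j : ℕ} (hj : j ≤ d) {x : ℕ} (n : rel (5 * d) (5 * j) x ≠ 14) :
    reg T h a b x = rv T h a b d j (rel (5 * d) (5 * j) x) := by
  rw [rel_spec] at n ⊢
  unfold reg
  split_ifs with e
  · rfl
  · rw [if_neg e] at n
    rw [rv, if_neg (by omega)]
    refine vtx_mod M f hd h5 h11 ?_
    interval_cases d <;> omega

theorem turn_sound (M : MC T) (B : Birk T) (f : T.F h a b) (hd : T.deg h = d) (h11 : d ≤ 11)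
    {E p q r : ℕ} (A : All (fact T h a b) E) (hp : p % 5 = 0) (n : turn (5 * d) E p q r ≠ 127) :
    turn (5 * d) E p q r < 127 ∧ T.F (reg T h a b p) (reg T h a b q) (reg T h a b r) ∧
      reg T h a b (turn (5 * d) E p q r) =
        T.opp (reg T h a b p) (reg T h a b q) (reg T h a b r) := by
  have h5 : 5 ≤ d := hd ▸ B.deg5 h
  obtain ⟨j, rfl⟩ : ∃ j, p = 5 * j := ⟨p / 5, by omega⟩
  have hj : j ≤ d := by
    by_contra k
    apply n
    unfold turn
    rw [show Nat.ble (5 * j) (5 * d) = false from Bool.eq_false_iff.2 fun e => by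
      have := Nat.le_of_ble_eq_true e
      omega]
  generalize hx : tt (kind (fd E (5 * j))) (rel (5 * d) (5 * j) q) (rel (5 * d) (5 * j) r) = x
  have e : turn (5 * d) E (5 * j) q r = if x < 15 then (5 * j + 5 * d + x - 5) % (5 * d)
      else if x = 15 then 126 else 127 := by
    unfold turn
    rw [show Nat.ble (5 * j) (5 * d) = true from Nat.ble_eq_true_of_le (by omega), sl_eq, hx]
    split_ifs with h1 h2
    · rw [show Nat.ble 15 x = false from Bool.eq_false_iff.2 fun e => by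
        have := Nat.le_of_ble_eq_true e
        omega]
      rfl
    · subst h2; rfl
    · rw [show Nat.ble 15 x = true from Nat.ble_eq_true_of_le (by omega),
        show Nat.beq x 15 = false from beq_ff h2]
  have x15 : x ≤ 15 := by
    by_contra k
    rw [e, if_neg (by omega), if_neg (by omega)] at n
    exact n rfl
  obtain ⟨k5, k4⟩ := kind_spec _ (fd_lt E (5 * j))
  obtain ⟨n1, n2, m⟩ := tt_spec _ k5 _ (rel_lt _ _ q) _ (rel_lt _ _ r) (hx ▸ x15)
  rw [hx] at m
  have hg : kind (fd E (5 * j)) < 4 → T.deg (T.rot h a b j) = 5 + kind (fd E (5 * j)) := fun k =>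
    vtx0 (T := T) j ▸ deg_of_bits B A k (k4 k)
  have t : T3 T (T.rot h a b j) (rv T h a b d j (rel (5 * d) (5 * j) r))
      (rv T h a b d j (rel (5 * d) (5 * j) q)) (rv T h a b d j x) :=
    m.elim (trp_sound M f hd h5 h11 j _ hg) fun m => (trp_sound M f hd h5 h11 j _ hg m).symm
  have ep : reg T h a b (5 * j) = T.rot h a b j := by
    rw [reg, if_neg (by omega), vtx0]
  have lt := Nat.mod_lt (5 * j + 5 * d + x - 5) (by omega : 5 * d > 0)
  rw [ep, reg_rel M f hd h5 h11 hj n1, reg_rel M f hd h5 h11 hj n2, ← t.2, e]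
  refine ⟨by split_ifs <;> omega, t.1, ?_⟩
  split_ifs with h1 h2
  · rw [reg, if_neg (by omega), rv, if_neg (by omega)]
    exact vtx_mod M f hd h5 h11 (Nat.mod_mod _ _)
  · subst h2; rfl
  · omega

theorem opp_thm : StOpp := by
  intro V _ T M B h a b d f hd h11 E p q r A n
  by_cases hp : p % 5 = 0
  · have e : oppS (5 * d) E p q r = turn (5 * d) E p q r := by
      unfold oppS
      rw [show Nat.mod p 5 = 0 from hp]
      rfl
    rw [e] at n ⊢
    exact turn_sound M B f hd h11 A hp n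
  · have e1 : Nat.beq (Nat.mod p 5) 0 = false := beq_ff hp
    by_cases hq : q % 5 = 0
    · have e : oppS (5 * d) E p q r = turn (5 * d) E q p r := by
        unfold oppS
        rw [e1, show Nat.mod q 5 = 0 from hq]
        rfl
      rw [e] at n ⊢
      obtain ⟨k1, k2, k3⟩ := turn_sound M B f hd h11 A hq n
      exact ⟨k1, T.s12 k2, k3.trans (T.opp_comm k2).symm⟩
    · refine absurd ?_ n
      unfold oppS
      rw [e1, show Nat.beq (Nat.mod q 5) 0 = false from beq_ff hq]

end Pool.Agent.FCT.Dis
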