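import Pool.Agent.Lib.MP_fe5cb4_co.FCT.Dis.Opp

/-!
Soundness of the placement of a quiz.
-/

set_option autoImplicit false

namespace Pool.Agent.FCT.Dis

theorem land31 (o : ℕ) : Nat.land o 31 = o % 32 := Nat.and_two_pow_sub_one_eq_mod o 5

theorem land15 (o : ℕ) : Nat.land o 15 = o % 16 := Nat.and_two_pow_sub_one_eq_mod o 4

theorem shr_eq (o k : ℕ) : Nat.shiftRight o k = o / 2 ^ k := Nat.shiftRight_eq_div_pow o k

theorem rd_bit (R i n : ℕ) : (rd R i).testBit n = (R.testBit (7 * i + n) && decide (n < 7)) := by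
  have : rd R i = (R >>> (7 * i)) &&& (2 ^ 7 - 1) := rfl
  rw [this, Nat.testBit_and, Nat.testBit_shiftRight, Nat.testBit_two_pow_sub_one]

theorem rd_lo {R y k i : ℕ} (hi : i < k) : rd (Nat.lor R (Nat.shiftLeft y (7 * k))) i = rd R i := by
  apply Nat.eq_of_testBit_eq
  intro n
  have : Nat.lor R (Nat.shiftLeft y (7 * k)) = R ||| (y <<< (7 * k)) := rfl
  rw [rd_bit, rd_bit, this, Nat.testBit_or, Nat.testBit_shiftLeft]
  by_cases hn : n < 7
  · simp [show ¬ (7 * i + n ≥ 7 * k) by omega]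
  · simp [hn]

theorem rd_top {R y k : ℕ} (hR : R < 2 ^ (7 * k)) (hy : y < 2 ^ 7) :
    rd (Nat.lor R (Nat.shiftLeft y (7 * k))) k = y := by
  apply Nat.eq_of_testBit_eq
  intro n
  have : Nat.lor R (Nat.shiftLeft y (7 * k)) = R ||| (y <<< (7 * k)) := rfl
  rw [rd_bit, this, Nat.testBit_or, Nat.testBit_shiftLeft,
    Nat.testBit_lt_two_pow (lt_of_lt_of_le hR (Nat.pow_le_pow_right (by omega) (by omega)))]
  by_cases hn : n < 7
  · simp [hn]
  · simp [hn, Nat.testBit_lt_two_pow (lt_of_lt_of_le hy (Nat.pow_le_pow_right (by omega)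
      (by omega : 7 ≤ n)))]

theorem lor_lt {R y k : ℕ} (hR : R < 2 ^ (7 * k)) (hy : y < 2 ^ 7) :
    Nat.lor R (Nat.shiftLeft y (7 * k)) < 2 ^ (7 * (k + 1)) := by
  have : Nat.lor R (Nat.shiftLeft y (7 * k)) = R ||| (y <<< (7 * k)) := rfl
  rw [this]
  refine Nat.or_lt_two_pow (lt_of_lt_of_le hR (Nat.pow_le_pow_right (by omega) (by omega))) ?_
  rw [Nat.shiftLeft_eq, Nat.mul_add, Nat.pow_add, Nat.mul_comm]
  exact Nat.mul_lt_mul_of_pos_left hy (Nat.two_pow_pos _)

theorem qrun_succ (d D E n o s R : ℕ) : qrun d D E (n + 1) o s R =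
    (!(oppS D E (rd R (o % 32)) (rd R (o / 32 % 32)) (rd R (o / 1024 % 32))).beq 127 &&
      (qc d E (o / 32768 % 16) (oppS D E (rd R (o % 32)) (rd R (o / 32 % 32))
        (rd R (o / 1024 % 32))) && qrun d D E n (o / 2 ^ 19) (s + 7) (Nat.lor R (Nat.shiftLeft
        (oppS D E (rd R (o % 32)) (rd R (o / 32 % 32)) (rd R (o / 1024 % 32))) s)))) := by
  have e1 : o / 32 % 32 = Nat.land (Nat.shiftRight o 5) 31 := by rw [land31, shr_eq]; rfl
  have e2 : o / 1024 % 32 = Nat.land (Nat.shiftRight o 10) 31 := by rw [land31, shr_eq]; rfl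
  have e3 : o / 32768 % 16 = Nat.land (Nat.shiftRight o 15) 15 := by rw [land15, shr_eq]; rfl
  rw [e1, e2, e3, ← land31, ← shr_eq]
  have k : ∀ x y z : Bool, Bool.rec (motive := fun _ => Bool)
      (Bool.rec (motive := fun _ => Bool) false z y) false x = (!x && (y && z)) := by decide
  exact k _ _ _

theorem qrun_spec {d D E : ℕ} (hO : ∀ p q r, oppS D E p q r ≠ 127 → oppS D E p q r < 127) (n : ℕ) :
    ∀ o k R : ℕ, R < 2 ^ (7 * k) → qrun d D E n o (7 * k) R = true →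
    ∃ ρ : ℕ → ℕ, (∀ i < k, ρ i = rd R i) ∧ ∀ t < n, ∀ w, w = o / 2 ^ (19 * t) →
      qc d E (w / 32768 % 16) (ρ (k + t)) = true ∧
      (w % 32 < k + t → w / 32 % 32 < k + t → w / 1024 % 32 < k + t →
        ρ (k + t) ≠ 127 ∧
          ρ (k + t) = oppS D E (ρ (w % 32)) (ρ (w / 32 % 32)) (ρ (w / 1024 % 32))) := by
  induction n with
  | zero => exact fun o k R _ _ => ⟨rd R, fun _ _ => rfl, fun t ht => absurd ht (by omega)⟩
  | succ n ih =>
    intro o k R hR h
    rw [qrun_succ] at h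
    simp only [Bool.and_eq_true, Bool.not_eq_true'] at h
    obtain ⟨h1, h2, h3⟩ := h
    have n1 := Nat.ne_of_beq_eq_false h1
    have lt := hO _ _ _ n1
    generalize hy : oppS D E (rd R (o % 32)) (rd R (o / 32 % 32)) (rd R (o / 1024 % 32)) = y
      at h1 h2 h3 n1 lt
    have y7 : y < 2 ^ 7 := by omega
    obtain ⟨ρ, r1, r2⟩ := ih (o / 2 ^ 19) (k + 1) _ (lor_lt hR y7) h3
    have lo : ∀ i < k, ρ i = rd R i := fun i hi => (r1 i (by omega)).trans (rd_lo hi)
    have top : ρ k = y := (r1 k (by omega)).trans (rd_top hR y7)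
    refine ⟨ρ, lo, fun t ht w hw => ?_⟩
    rcases t with _ | t
    · rw [Nat.mul_zero, Nat.pow_zero, Nat.div_one] at hw
      subst hw
      rw [Nat.add_zero, top]
      exact ⟨h2, fun a b c => ⟨n1, by rw [lo _ a, lo _ b, lo _ c, hy]⟩⟩
    · have := r2 t (by omega) w (by
        rw [hw, Nat.div_div_eq_div_mul, ← Nat.pow_add]
        congr 2
        omega)
      rwa [show k + 1 + t = k + (t + 1) by omega] at this

set_option synthInstance.maxSize 4096 in
theorem qc_spec : ∀ g < 16, ∀ f < 32, f = Nat.land (Nat.shiftRight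
    (nat_lit 0xffffffffffd76dd7bfffffff) (Nat.mul (nat_lit 6) g)) (nat_lit 63) →
    5 ≤ g ∧ g ≤ 8 ∧ ∀ k < 5, k ≠ g - 5 → f.testBit k = true := by
  decide +kernel

variable {V : Type} {T : Tri V} {h a b : V} {d : ℕ}

theorem qc_sound (B : Birk T) (hd : T.deg h = d) {E g y : ℕ} (A : All (fact T h a b) E)
    (hg : g < 16) (g0 : g ≠ 0) (e : qc d E g y = true) : T.deg (reg T h a b y) = g := by
  unfold qc at e
  rw [show Nat.beq g 0 = false from beq_ff g0] at e
  by_cases hy : y = 126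
  · subst hy
    rw [reg, if_pos rfl, hd]
    exact (Nat.eq_of_beq_eq_true e).symm
  · rw [show Nat.beq y 126 = false from beq_ff hy] at e
    obtain ⟨k1, k2, k3⟩ := qc_spec g hg _ (fd_lt E y) (Nat.eq_of_beq_eq_true e)
    rw [reg, if_neg hy, deg_of_bits B A (g := g - 5) (by omega) k3]
    omega

theorem quiz_thm (hO : StOpp) : StQuiz := by
  intro V _ T M B h a b d f hd h11 E x R A hR e X
  have O := fun p q r => hO V T M B h a b d f hd h11 E p q r A
  simp only [quiz, sl_eq, Bool.and_eq_true, Bool.or_eq_true, Bool.not_eq_true', land15, land31,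
    shr_eq] at e
  obtain ⟨⟨⟨⟨e0, e1⟩, e2⟩, e3⟩, e4⟩ := e
  obtain ⟨ρ, r1, r2⟩ := qrun_spec (fun p q r n => (O p q r n).1) _ _ 3 R hR e4
  have w : ∀ k, ∃ w, w = x / 2 ^ 17 / 2 ^ (19 * k) ∧ fld x 17 19 k = w % 524288 := fun k =>
    ⟨_, rfl, by rw [fld, Nat.div_div_eq_div_mul, ← Nat.pow_add]; rfl⟩
  refine X (fun i => reg T h a b (ρ i)) ?_ (fun k hk n => ?_) (fun k hk => ?_) fun k hk => ?_
  · simp only [r1 0 (by omega), r1 1 (by omega), r1 2 (by omega)]
    rcases e0 with (e | e) | e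
    · exact (O _ _ _ (Nat.ne_of_beq_eq_false e)).2.1
    · exact T.cyc (T.cyc (O _ _ _ (Nat.ne_of_beq_eq_false e)).2.1)
    · exact T.cyc (O _ _ _ (Nat.ne_of_beq_eq_false e)).2.1
  · simp only [r1 k hk]
    refine qc_sound B hd A (Nat.mod_lt _ (by omega)) n ?_
    interval_cases k
    · simpa [fld] using e1
    · exact e2
    · exact e3
  · obtain ⟨u, h1, h2⟩ := w k
    have k0 : fld (u % 524288) 0 5 0 = u % 32 := by simp only [fld]; omega
    have k1 : fld (u % 524288) 0 5 1 = u / 32 % 32 := by simp only [fld]; omega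
    have k2 : fld (u % 524288) 0 5 2 = u / 1024 % 32 := by simp only [fld]; omega
    rw [h2, k0, k1, k2]
    intro a1 a2 a3
    obtain ⟨n, e⟩ := (r2 k hk u h1).2 a1 a2 a3
    rw [e] at n
    show reg T h a b (ρ (3 + k)) = _
    rw [e]
    exact (O _ _ _ n).2.2
  · obtain ⟨u, h1, h2⟩ := w k
    have k0 : fld (u % 524288) 15 4 0 = u / 32768 % 16 := by simp only [fld]; omega
    rw [h2, k0]
    exact fun n => qc_sound B hd A (Nat.mod_lt _ (by omega)) n (r2 k hk u h1).1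

end Pool.Agent.FCT.Dis
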