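import Pool.Agent.Lib.MP_fe5cb4_co.FCT.Dis.Defs
import Pool.Agent.Lib.MP_fe5cb4_co.FCT.Dis.Geo

/-!
Rotation, period and mirror image of a cartwheel.
-/

set_option autoImplicit false

namespace Pool.Agent.FCT.Dis

variable {V : Type} {T : Tri V} {h a b s t u : V}

/-- The charge sent along an edge does not depend on the face. -/
theorem raw2_opp (rs : List ℕ) (hF : T.F s t u) :
    raw2 T rs s t (T.opp s t u) = raw2 T rs s t u := by
  rw [raw2, raw2, T.opp_opp hF, Nat.add_comm]

variable [Fintype V]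

theorem rot_mir (M : MC T) (hF : T.F h a b) {m j : ℕ} (e : (m + j) % T.deg h = 0) :
    T.rot h a (T.opp h a b) (m + 1) = T.opp h (T.rot h a b j) (T.rot h a b (j + 1)) := by
  have p := M.deg_pos h
  have k := T.rot_back hF (j + T.deg h - 1)
  rw [show j + T.deg h - 1 + 1 = j + T.deg h by omega,
    show j + T.deg h - 1 + 2 = j + 1 + T.deg h by omega, M.rot_per hF, M.rot_per hF] at k
  rw [k]
  refine M.rot_rev hF _ _ ?_
  rw [show m + 1 + (j + T.deg h - 1) = m + j + T.deg h by omega, Nat.add_mod_right, e]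

theorem vtx_mir (M : MC T) (hF : T.F h a b) (j : ℕ) (hj : j < T.deg h) (r : ℕ) (hr : r < 5) :
    vtx T h a (T.opp h a b) (ms (T.deg h) (5 * j + r)) = vtx T h a b (5 * j + r) := by
  have e0 : ((T.deg h - j) % T.deg h + j) % T.deg h = 0 := by
    rw [Nat.mod_add_mod, Nat.sub_add_cancel hj.le, Nat.mod_self]
  have e1 := M.rot_rev hF _ _ e0
  have e2 := rot_mir M hF e0
  have f := T.rot_F hF j
  have d1 : ∀ n r : ℕ, r < 5 → (5 * n + r) / 5 = n := fun n r _ => by omega
  have d2 : ∀ n r : ℕ, r < 5 → (5 * n + r) % 5 = r := fun n r _ => by omega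
  unfold ms
  rw [d1 j r hr, d2 j r hr]
  interval_cases r
  · rw [if_pos rfl, ← Nat.add_zero (5 * ((T.deg h - j) % T.deg h))]
    unfold vtx
    simp only [d1 _ 0 hr, d2 _ 0 hr, if_true, e1]
  · rw [if_neg (by decide), if_pos rfl]
    unfold vtx
    simp only [d1 _ 1 hr, d2 _ 1 hr, if_true, one_ne_zero, if_false]
    rw [M.rot_rev hF _ (j + 1) (by rw [show T.deg h - 1 - j + (j + 1) = T.deg h by omega,
        Nat.mod_self]),
      M.rot_rev hF _ j (by rw [show T.deg h - 1 - j + 1 + j = T.deg h by omega, Nat.mod_self])]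
    exact T.opp_comm (T.cyc f)
  · rw [if_neg (by decide), if_neg (by decide)]
    unfold vtx
    simp only [d1 _ 2 hr, d2 _ 2 hr, d1 _ (6 - 2) (by decide), d2 _ (6 - 2) (by decide), e1, e2]
    rfl
  · rw [if_neg (by decide), if_neg (by decide)]
    unfold vtx
    simp only [d1 _ 3 hr, d2 _ 3 hr, e1, e2, T.opp_opp f, if_true, show ¬ (3 = 0) by decide,
      show ¬ (3 = 1) by decide, show ¬ (3 = 2) by decide, if_false]
    split_ifs with g
    · rw [← T.opp_comm f]
      refine (M.rot_rev (T.s12 f) _ _ ?_).symm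
      rw [show T.deg (T.rot h a b j) / 2 + T.deg (T.rot h a b j) / 2 = T.deg (T.rot h a b j) by
        omega, Nat.mod_self]
    · rfl
  · rw [if_neg (by decide), if_neg (by decide)]
    unfold vtx
    simp only [d1 _ 4 hr, d2 _ 4 hr, d1 _ (6 - 4) (by decide), d2 _ (6 - 4) (by decide), e1, e2,
      T.opp_opp f]
    rfl

theorem rot_thm : StRot := by
  intro V _ T M B h a b d hF hd rs cap
  subst hd
  refine ⟨fun r s => ?_, fun s => ?_, fun r i => ?_, fun i => ?_, fun s hs => ?_, fun i hi => ?_⟩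
  · have e1 : (s + 5 * r) / 5 = r + s / 5 := by omega
    have e2 : (s + 5 * r) % 5 = s % 5 := by omega
    unfold vtx
    simp only [T.rot_shift, e1, e2, Nat.add_assoc]
  · have e1 : (s + 5 * T.deg h) / 5 = s / 5 + T.deg h := by omega
    have e2 : (s + 5 * T.deg h) % 5 = s % 5 := by omega
    have e3 : s / 5 + T.deg h + 1 = s / 5 + 1 + T.deg h := by omega
    unfold vtx
    simp only [e1, e2, e3, M.rot_per hF]
  · unfold net
    simp only [T.rot_shift, Nat.add_comm i r, Nat.add_assoc]
  · unfold net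
    rw [Nat.add_right_comm, M.rot_per hF, M.rot_per hF]
  · have := vtx_mir M hF (s / 5) (by omega) (s % 5) (by omega)
    rwa [Nat.div_add_mod] at this
  · have e0 : (i + (T.deg h - i)) % T.deg h = 0 := by
      rw [Nat.add_sub_cancel' hi, Nat.mod_self]
    have f := T.rot_F hF (T.deg h - i)
    unfold net
    rw [M.rot_rev hF _ _ e0, rot_mir M hF e0, raw2_opp rs f, ← T.opp_comm f,
      raw2_opp rs (T.s12 f)]

end Pool.Agent.FCT.Dis
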