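import Pool.Agent.Lib.MP_fe5cb4_co.FCT.Dis.Bits

/-!
Discharging: the checker of trees and tables is sound.
-/

set_option autoImplicit false
set_option exponentiation.threshold 1000

namespace Pool.Agent.FCT.Dis

/-- The facts of a state: the part below `960`, its mirror image above. -/
def G2 (F F' : ℕ → Prop) (n : ℕ) : Prop := if n < 960 then F n else F' (n - 960)

variable {V : Type} [Fintype V] {T : Tri V} {h a b : V} {d cap : ℕ} {rs : List ℕ}

/-- The facts of the state at a flag. -/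
abbrev GG (T : Tri V) (h a b : V) : ℕ → Prop := G2 (fact T h a b) (fact T h a (T.opp h a b))

omit [Fintype V] in
theorem fact_iff {s k : ℕ} (hk : k < 5) :
    fact T h a b (6 * s + k) ↔ cls (T.deg (vtx T h a b s)) ≠ k := by
  unfold fact
  rw [show (6 * s + k) % 6 = k by omega, show (6 * s + k) / 6 = s by omega]
  exact and_iff_right hk

theorem ms_lt {s : ℕ} (hs : s < 5 * d) : ms d s < 5 * d := by
  have := Nat.mod_lt (d - s / 5) (show d > 0 by omega)
  unfold ms
  split_ifs <;> omega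

theorem all_un (hR : StRot) (M : MC T) (B : Birk T) (hF : T.F h a b) (hd : T.deg h = d)
    (h11 : d ≤ 11) {s m : ℕ} (hm : m < 32)
    (H : ∀ k, m.testBit k = true → cls (T.deg (vtx T h a b s)) ≠ k) :
    All (GG T h a b) (m * un d s) := by
  have d5 := hd ▸ B.deg5 h
  unfold un
  cases e : s.blt (5 * d)
  · intro n e
    simp at e
  · have hs : s < 5 * d := by simpa using e
    have := ms_lt hs
    obtain ⟨-, r2, -, -, r5, -⟩ := hR V T M B h a b d hF hd [] 0
    obtain ⟨-, r2', -⟩ := hR V T M B h a _ d (T.opp_F hF) hd [] 0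
    rw [cond_true, show m * ((1 + 2 ^ (30 * d)) * (2 ^ (6 * s) + 2 ^ (960 + 6 * ms d s))) =
      m * 2 ^ (6 * s) + (m * 2 ^ (6 * (s + 5 * d)) + (m * 2 ^ (960 + 6 * ms d s) +
        m * 2 ^ (960 + 6 * (ms d s + 5 * d)))) by ring]
    refine all_four hm (by omega) (by omega) (by omega) fun k e => ?_
    have hk : k < 5 := bit_lt (k := 5) hm e
    have c := H k e
    unfold GG G2
    rw [if_pos (by omega), if_pos (by omega), if_neg (by omega), if_neg (by omega),
      Nat.add_assoc, Nat.add_assoc, Nat.add_sub_cancel_left, Nat.add_sub_cancel_left,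
      fact_iff hk, fact_iff hk, fact_iff hk, fact_iff hk, r2, r2', r5 s hs]
    exact ⟨c, c, c, c⟩

theorem net_mod (hR : StRot) (M : MC T) (B : Birk T) (hF : T.F h a b) (hd : T.deg h = d) (i : ℕ) :
    net T rs cap h a b (i % d) = net T rs cap h a b i := by
  obtain ⟨-, -, -, r4, -⟩ := hR V T M B h a b d hF hd rs cap
  conv_rhs => rw [← Nat.mod_add_div i d]
  induction i / d with
  | zero => rfl
  | succ n ih => rw [Nat.mul_succ, ← Nat.add_assoc, r4, ih]

theorem fact_rot (hR : StRot) (M : MC T) (B : Birk T) (hF : T.F h a b) (hd : T.deg h = d)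
    (r n : ℕ) (H : fact T h a b (30 * r + n)) :
    fact T h (T.rot h a b r) (T.rot h a b (r + 1)) n := by
  unfold fact at H ⊢
  rw [(hR V T M B h a b d hF hd [] 0).1]
  rwa [show (30 * r + n) % 6 = n % 6 by omega, show (30 * r + n) / 6 = n / 6 + 5 * r by omega] at H

theorem view_spec (hR : StRot) (M : MC T) (B : Birk T) (hF : T.F h a b) (hd : T.deg h = d)
    {E : ℕ} (hE : All (GG T h a b) E) (w : ℕ) : ∃ a' b', T.F h a' b' ∧
      (∀ Q < 2 ^ 360, Q &&& view E w = Q → All (fact T h a' b') Q) ∧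
      ∀ i < d, emap d (w &&& 511) i < d ∧
        net T rs cap h a' b' (emap d (w &&& 511) i) = net T rs cap h a b i := by
  have d5 := hd ▸ B.deg5 h
  have e1 : view E w = E >>> (30 * (w >>> 3 &&& 47)) := rfl
  have e2 : ∀ i, emap d (w &&& 511) i = (i * Bool.rec (motive := fun _ => ℕ) (d - 1) 1
      (Nat.beq ((w &&& 511) >>> 3 &&& 32) 0) + (16 * d - ((w &&& 511) >>> 3 &&& 15))) % d :=
    fun _ => rfl
  simp only [and511 w 32 (by omega), and511 w 15 (by omega)] at e2
  have bit : ∀ Q < 2 ^ 360, Q &&& view E w = Q → ∀ n, Q.testBit n = true →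
      n < 360 ∧ GG T h a b (30 * (w >>> 3 &&& 47) + n) := fun Q hQ e n t => by
    refine ⟨bit_lt hQ t, hE _ ?_⟩
    rw [← e, Nat.testBit_and, e1, Nat.testBit_shiftRight, Bool.and_eq_true] at t
    exact t.2
  obtain ⟨r16, ⟨c1, c2⟩ | ⟨c1, c2⟩⟩ := and47 (w >>> 3)
  · generalize w >>> 3 &&& 15 = r at *
    refine ⟨_, _, T.rot_F hF r, fun Q hQ e n t => ?_, fun i hi => ⟨Nat.mod_lt _ (by omega), ?_⟩⟩
    · obtain ⟨l, g⟩ := bit Q hQ e n t
      rw [c2, GG, G2, if_pos (by omega)] at g
      exact fact_rot hR M B hF hd r n g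
    · rw [(hR V T M B h a b d hF hd rs cap).2.2.1, ← net_mod hR M B hF hd, e2, c1,
        Nat.mod_add_mod, ← net_mod hR M B hF hd i]
      congr 1
      show (i * 1 + (16 * d - r) + r) % d = _
      rw [show i * 1 + (16 * d - r) + r = i + 16 * d by omega, Nat.add_mul_mod_self_right]
  · generalize w >>> 3 &&& 15 = r at *
    have hF' := T.opp_F hF
    refine ⟨_, _, T.rot_F hF' r, fun Q hQ e n t => ?_, fun i hi => ⟨Nat.mod_lt _ (by omega), ?_⟩⟩
    · obtain ⟨l, g⟩ := bit Q hQ e n t
      rw [c2, GG, G2, if_neg (by omega), show 30 * (32 + r) + n - 960 = 30 * r + n by omega] at g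
      exact fact_rot hR M B hF' hd r n g
    · have c3 : Nat.beq (w >>> 3 &&& 32) 0 = false := by
        rw [Bool.eq_false_iff]
        exact fun e => c1 (Nat.eq_of_beq_eq_true e)
      have := (hR V T M B h a b d hF hd rs cap).2.2.2.2.2 (d - i) (by omega)
      rw [show d - (d - i) = i by omega] at this
      rw [(hR V T M B h a _ d hF' hd rs cap).2.2.1, ← net_mod hR M B hF' hd, e2, c3,
        Nat.mod_add_mod, ← this, ← net_mod hR M B hF' hd (d - i)]
      congr 1
      show (i * (d - 1) + (16 * d - r) + r) % d = _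
      refine Nat.ModEq.add_right_cancel' i ?_
      obtain ⟨t, rfl⟩ : ∃ t, d = t + 1 := ⟨d - 1, by omega⟩
      have e3 : i * (t + 1 - 1) + (16 * (t + 1) - r) + r + i = (t + 1) * (i + 16) := by
        rw [Nat.add_sub_cancel, Nat.add_assoc (i * t), Nat.sub_add_cancel (by omega)]
        ring
      rw [e3, Nat.sub_add_cancel hi.le, Nat.ModEq, Nat.mul_mod_right, Nat.mod_self]

/-- A sound checker of trees. -/
def Good (T : Tri V) (rs : List ℕ) (cap d : ℕ) (h a b : V) (f : ℕ → List ℕ → ℕ → ℕ → ℕ) : Prop :=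
  ∀ E R x L, f E R x L ≠ 0 → All (GG T h a b) E → (∀ i ∈ R, i < d) →
    sumL (net T rs cap h a b) R ≤ (x : ℤ) - 1024

variable {f : ℕ → List ℕ → ℕ → ℕ → ℕ} {E x w L k rl : ℕ} {R : List ℕ} {tb : Tr} {g : ℕ → ℕ}

theorem split_ok (hR : StRot) (M : MC T) (B : Birk T) (hF : T.F h a b) (hd : T.deg h = d)
    (h11 : d ≤ 11) (hf : Good T rs cap d h a b f) (H : oSplit d f E R x w L ≠ 0)
    (hE : All (GG T h a b) E) (hl : ∀ i ∈ R, i < d) :
    sumL (net T rs cap h a b) R ≤ (x : ℤ) - 1024 := by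
  unfold oSplit at H
  simp only [sl_def] at H
  have hm : Nat.land (Nat.shiftRight w (nat_lit 9)) (nat_lit 31) < 32 :=
    Nat.lt_succ_of_le Nat.and_le_right
  generalize Nat.land (Nat.shiftRight w (nat_lit 9)) (nat_lit 31) = m at *
  generalize Nat.land (Nat.shiftRight w (nat_lit 3)) (nat_lit 63) = s at *
  obtain ⟨L1, e1, e2⟩ := nrec H
  cases c : m.testBit (cls (T.deg (vtx T h a b s)))
  · refine hf _ R x L (ne_of_eq_of_ne e1 (Nat.succ_ne_zero _))
      (hE.or (all_un hR M B hF hd h11 (s := s) hm fun k t e => ?_)) hl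
    rw [e, t] at c
    exact absurd c (by simp)
  · refine hf _ R x L1 e2 (hE.or (all_un hR M B hF hd h11 (s := s) (m := 31 ^^^ m)
      (Nat.xor_lt_two_pow (n := 5) (by omega) hm) fun k t e => ?_)) hl
    rw [← e, Nat.testBit_xor, c, show 31 = 2 ^ 5 - 1 from rfl, Nat.testBit_two_pow_sub_one,
      decide_eq_true (cls_lt _)] at t
    exact absurd t (by simp)

theorem shr_lt (t : Tr) (n : ℕ) : t.get n >>> 24 < 2 ^ 360 := by
  rw [Nat.shiftRight_eq_div_pow, Nat.div_lt_iff_lt_mul (Nat.two_pow_pos 24), ← pow_add]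
  exact t.get_lt n

theorem bad_ok (hR : StRot) (M : MC T) (B : Birk T) (hF : T.F h a b) (hd : T.deg h = d)
    (hV : ∀ j < k, Valid T rs cap d (tb.get j)) (H : oBad k tb E w L ≠ 0)
    (hE : All (GG T h a b) E) : False := by
  unfold oBad at H
  simp only [sl_def] at H
  generalize Nat.shiftRight w (nat_lit 9) = n at *
  obtain ⟨e1, H⟩ := brec H
  have e2 : tb.get n &&& view E w <<< 24 = tb.get n := Nat.eq_of_beq_eq_true (brec H).1
  obtain ⟨a', b', hF', h1, -⟩ := view_spec (rs := rs) (cap := cap) hR M B hF hd hE w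
  have e3 : tb.get n >>> 24 &&& view E w = tb.get n >>> 24 := by
    conv_rhs => rw [← e2, Nat.shiftRight_and_distrib, Nat.shiftLeft_shiftRight]
  have e4 : tb.get n % 2 ^ 24 = 0 := by
    rw [← e2, Nat.and_mod_two_pow, Nat.shiftLeft_eq, Nat.mul_mod_left, Nat.and_zero]
  have := hV n (Nat.le_of_ble_eq_true e1) h a' b' hF' hd
    (Nat.shiftRight_eq_div_pow _ _ ▸ h1 _ (shr_lt tb n) e3)
  rw [show tb.get n / 2 ^ 12 % 4096 = 0 by omega, show tb.get n % 4096 = 0 by omega,
    sumA_zero] at this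
  omega

theorem bound_ok (hR : StRot) (M : MC T) (B : Birk T) (hF : T.F h a b) (hd : T.deg h = d)
    (h11 : d ≤ 11) (hrl : rl < 2 ^ (30 * d)) (hg : GOk rs d cap g)
    (H : oBound cap rl g E R x L ≠ 0) (hE : All (GG T h a b) E) (hl : ∀ i ∈ R, i < d) :
    sumL (net T rs cap h a b) R ≤ (x : ℤ) - 1024 := by
  have e : hi g rl E R ≤ lo cap x R := Nat.le_of_ble_eq_true (brec H).1
  have : sumL (net T rs cap h a b) R + lo cap x R + 1024 ≤ hi g rl E R + x := by
    clear H e
    induction R with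
    | nil =>
      show (0 : ℤ) + x + 1024 ≤ (1024 : ℕ) + x
      omega
    | cons i R ih =>
      obtain ⟨h1, h2⟩ := List.forall_mem_cons.1 hl
      have e1 : hi g rl E (i :: R) = g (E >>> (30 * i) &&& rl) + hi g rl E R := rfl
      have e2 : lo cap x (i :: R) = cap + lo cap x R := rfl
      have l : E >>> (30 * i) &&& rl < 2 ^ (30 * d) := Nat.and_le_right.trans_lt hrl
      have := hg V T M B h _ _ (T.rot_F hF i) hd _ (fun n t => by
        have := bit_lt l t
        rw [Nat.testBit_and, Nat.testBit_shiftRight, Bool.and_eq_true] at t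
        have u := hE _ t.1
        rw [GG, G2, if_pos (by omega)] at u
        exact fact_rot hR M B hF hd i n u) l
      rw [(hR V T M B h a b d hF hd rs cap).2.2.1, Nat.zero_add] at this
      have := ih h2
      rw [e1, e2, sumL_cons]
      omega
  omega

theorem lem_ok (hR : StRot) (M : MC T) (B : Birk T) (hF : T.F h a b) (hd : T.deg h = d)
    (hV : ∀ j < k, Valid T rs cap d (tb.get j)) (hf : Good T rs cap d h a b f)
    (H : oLem d k tb f E R x w L ≠ 0) (hE : All (GG T h a b) E) (hl : ∀ i ∈ R, i < d) :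
    sumL (net T rs cap h a b) R ≤ (x : ℤ) - 1024 := by
  unfold oLem at H
  simp only [sl_def] at H
  generalize Nat.shiftRight w (nat_lit 9) = n at *
  obtain ⟨e1, H⟩ := brec H
  obtain ⟨e2, H⟩ := brec H
  obtain ⟨e3, H⟩ := brec H
  obtain ⟨a', b', hF', h1, h2⟩ := view_spec (rs := rs) (cap := cap) hR M B hF hd hE w
  have v := hV n (Nat.le_of_ble_eq_true e1) h a' b' hF' hd
    (Nat.shiftRight_eq_div_pow _ _ ▸ h1 _ (shr_lt tb n) (Nat.eq_of_beq_eq_true e2))
  generalize tb.get n = e at *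
  obtain ⟨A', c', r', p1, -, p3, p4, p5⟩ := pick_spec (emap d (w &&& 511)) _ d _ _ R
    (e >>> 12 &&& 4095) [] [] hl (by simp) (by simp) h2
  obtain ⟨e4, H⟩ := brec (p1 ▸ H)
  have := hf E r' (x + 1024 - Nat.land e (nat_lit 4095)) L H hE p3
  have q1 : Nat.land e (nat_lit 4095) = e % 4096 := Nat.and_two_pow_sub_one_eq_mod e 12
  have q2 : e >>> 12 &&& 4095 = e / 2 ^ 12 % 4096 := by
    rw [Nat.shiftRight_eq_div_pow]
    exact Nat.and_two_pow_sub_one_eq_mod _ 12
  have q3 : e % 4096 ≤ x + 1024 := q1 ▸ Nat.le_of_ble_eq_true e3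
  rw [Nat.eq_of_beq_eq_true e4, sumA_zero, q2] at p5
  rw [q1] at this
  have q4 : sumL (net T rs cap h a b) [] = 0 := rfl
  omega

omit [Fintype V] in
theorem part_ok (hf : Good T rs cap d h a b f) (H : oPart f E R x w L ≠ 0)
    (hE : All (GG T h a b) E) (hl : ∀ i ∈ R, i < d) :
    sumL (net T rs cap h a b) R ≤ (x : ℤ) - 1024 := by
  unfold oPart at H
  simp only [sl_def] at H
  generalize Nat.shiftRight w (nat_lit 14) = y at *
  obtain ⟨e1, H⟩ := brec H
  obtain ⟨A', c', r', p1, p2, p3, p4, -⟩ := pick_spec (fun i => i) _ d _ (net T rs cap h a b) R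
    (Nat.land (Nat.shiftRight w (nat_lit 3)) (nat_lit 2047)) [] [] hl (by simp) (by simp)
    fun i hi => ⟨hi, rfl⟩
  obtain ⟨L1, e2, e3⟩ := nrec (p1 ▸ H)
  have h1 := hf E c' y L (by rw [e2]; omega) hE p2
  have h2 := hf E r' (x + 1024 - y) L1 e3 hE p3
  have q3 : y ≤ x + 1024 := Nat.le_of_ble_eq_true e1
  have q4 : sumL (net T rs cap h a b) [] = 0 := rfl
  omega

omit [Fintype V] in
theorem dbl_ok (hf : Good T rs cap d h a b f) (H : oDbl f E R x L ≠ 0)
    (hE : All (GG T h a b) E) (hl : ∀ i ∈ R, i < d) :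
    sumL (net T rs cap h a b) R ≤ (x : ℤ) - 1024 := by
  obtain ⟨e1, H⟩ := brec H
  obtain ⟨p1, p2⟩ := dup_spec d (net T rs cap h a b) R hl
  have := hf E (dup R) (x + x - 1023) L H hE p1
  have q3 : 512 ≤ x := Nat.le_of_ble_eq_true e1
  omega

omit [Fintype V] in
theorem empty_ok {s : ℕ} (hs : s < 64) (H : fd E s = 31) (hE : All (GG T h a b) E) : False := by
  have c := cls_lt (T.deg (vtx T h a b s))
  have t : (fd E s).testBit (cls (T.deg (vtx T h a b s))) = true := by
    rw [H, show 31 = 2 ^ 5 - 1 from rfl, Nat.testBit_two_pow_sub_one, decide_eq_true c]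
  have u := hE _ (fd_tb t).2
  rw [GG, G2, if_pos (by omega), fact_iff c] at u
  exact u rfl

theorem go_ok (hR : StRot) (M : MC T) (B : Birk T) (hF : T.F h a b) (hd : T.deg h = d)
    (h11 : d ≤ 11) (hrl : rl < 2 ^ (30 * d)) (hg : GOk rs d cap g)
    (hV : ∀ j < k, Valid T rs cap d (tb.get j)) (n : ℕ) :
    Good T rs cap d h a b (go d cap rl g k tb n) := by
  induction n with
  | zero => exact fun _ _ _ _ H => absurd rfl H
  | succ n ih =>
    intro E R x L H hE hl
    have e : go d cap rl g k tb (n + 1) E R x L = node d cap rl g k tb (go d cap rl g k tb n) E R x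
      (Nat.land L (nat_lit 4294967295)) (Nat.shiftRight L (nat_lit 32)) := rfl
    rw [e] at H
    generalize Nat.land L (nat_lit 4294967295) = w at H
    generalize Nat.shiftRight L (nat_lit 32) = L' at H
    unfold node at H
    generalize Nat.land w (nat_lit 7) = o at H
    match o, H with
    | 0, H => exact split_ok hR M B hF hd h11 ih H hE hl
    | 1, H => exact (bad_ok hR M B hF hd hV H hE).elim
    | 2, H => exact bound_ok hR M B hF hd h11 hrl hg H hE hl
    | 3, H => exact lem_ok hR M B hF hd hV ih H hE hl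
    | 4, H => exact part_ok ih H hE hl
    | 5, H => exact dbl_ok ih H hE hl
    | o + 6, H =>
      exact (empty_ok (Nat.lt_succ_of_le Nat.and_le_right)
        (Nat.eq_of_beq_eq_true (brec H).1) hE).elim

theorem st_ok (hR : StRot) (M : MC T) (B : Birk T) (hF : T.F h a b) (hd : T.deg h = d)
    (h11 : d ≤ 11) {Q : ℕ} (hQ : All (fact T h a b) Q) (n : ℕ) : All (GG T h a b) (st d Q n) := by
  induction n with
  | zero =>
    intro m e
    exact absurd e (by simp [st])
  | succ n ih =>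
    exact (all_un hR M B hF hd h11 (fd_lt32 Q n) fun j t =>
      (fact_iff (fd_tb t).1).1 (hQ _ (fd_tb t).2)).or ih

theorem ent_ok (hR : StRot) (hQ : StQuiz) (M : MC T) (B : Birk T) (h11 : d ≤ 11)
    (hrl : rl < 2 ^ (30 * d)) (hg : GOk rs d cap g) {nq : ℕ} {qz : Tr}
    (hq : ∀ j < nq, XQ T (qz.get j)) (hV : ∀ j < k, Valid T rs cap d (tb.get j))
    (H : ent d cap rl g nq tb qz k L ≠ 0) : Valid T rs cap d (tb.get k) := by
  intro h a b hF hd hE
  unfold ent at H
  simp only [sl_def] at H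
  rw [← Nat.shiftRight_eq_div_pow] at hE
  generalize tb.get k = e at *
  generalize (L.land 1).beq 0 = c at H
  cases c
  · have := (brec H).1
    rw [Bool.and_eq_true] at this
    exact absurd (hq _ (Nat.le_of_ble_eq_true this.1)) (hQ V T M B h a b d hF hd h11 _ _ _ hE
      (Nat.lt_succ_of_le Nat.and_le_right) this.2)
  · obtain ⟨R, p1, p2, p3⟩ := edges_spec ((e.shiftRight 12).land 4095) _ d (net T rs cap h a b) d
      [] le_rfl (by simp)
    have := go_ok hR M B hF hd h11 hrl hg hV 250 _ _ _ _ (p1 ▸ H)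
      (st_ok hR M B hF hd h11 hE _) p2
    have q1 : e.land 4095 = e % 4096 := Nat.and_two_pow_sub_one_eq_mod e 12
    have q2 : (e.shiftRight 12).land 4095 = e / 2 ^ 12 % 4096 := by
      rw [← Nat.shiftRight_eq_div_pow]
      exact Nat.and_two_pow_sub_one_eq_mod _ 12
    have q4 : sumL (net T rs cap h a b) [] = 0 := rfl
    rw [q1, p3, q2] at this
    omega

theorem run_thm (hR : StRot) (hQ : StQuiz) : StRun := by
  intro rs d cap rl g nq tb qz l k k' h11 hrl hg hU H V _ T M B hq
  have hV := hU V T M B hq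
  clear hU
  induction l generalizing k with
  | nil => exact (show k = k' + 1 from H) ▸ hV
  | cons L l ih =>
    obtain ⟨n, e1, -⟩ := nrec (f := fun _ => run d cap rl g nq tb qz l (k + 1))
      (x := ent d cap rl g nq tb qz k L) (ne_of_eq_of_ne H (Nat.succ_ne_zero k'))
    have e : run d cap rl g nq tb qz (L :: l) k = Nat.rec (motive := fun _ => ℕ) 0
      (fun _ _ => run d cap rl g nq tb qz l (k + 1)) (ent d cap rl g nq tb qz k L) := rfl
    rw [e, e1] at H
    refine ih (k + 1) H fun j hj => ?_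
    rcases Nat.lt_succ_iff_lt_or_eq.1 hj with c | rfl
    · exact hV j c
    · exact ent_ok hR hQ M B h11 hrl hg hq hV (by rw [e1]; omega)

theorem gok_thm (hI : StIns) (hV : StVec) {rs : List ℕ} {d cap rp x on mk fl tp vl md tP tN : ℕ}
    (h11 : d ≤ 11)
    (H : vecOk d (insP d rs) (insN d rs) rp x on mk fl tp vl md tP tN = true) :
    GOk rs d cap (gain (30 * d) cap rp x on mk fl tp vl md tP tN) := by
  intro V _ T M B h a b hF hd E hE hl
  have := hV d cap _ _ rp x on mk fl tp vl md tP tN (hd ▸ B.deg5 h) h11 H (fact T h a b) E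
    (fun s => ⟨fun c => by have := c.1; omega, _, cls_lt _,
      fun c => (fact_iff (cls_lt _)).1 c rfl⟩) hE hl
  obtain ⟨h1, h2⟩ := hI V T M B h a b d hF hd h11 rs
  have e : net T rs cap h a b 0 =
    (min cap (raw2 T rs a h b) : ℕ) - (min cap (raw2 T rs h a b) : ℕ) := rfl
  omega

end Pool.Agent.FCT.Dis
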