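import Pool.Agent.Lib.MP_fe5cb4_co.FCT.Dis.Chk

/-!
Discharging: the bound that is computed for all instances of an edge at once.
-/

set_option autoImplicit false
set_option exponentiation.threshold 400

namespace Pool.Agent.FCT.Dis

namespace Vec

theorem blk (op : ℕ → ℕ → ℕ) (f : Bool → Bool → Bool)
    (h : ∀ a b i, (op a b).testBit i = f (a.testBit i) (b.testBit i)) (h0 : f false false = false)
    {W a b : ℕ} (A B : ℕ) (ha : a < 2 ^ W) (hb : b < 2 ^ W) :
    op (2 ^ W * A + a) (2 ^ W * B + b) = 2 ^ W * op A B + op a b := by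
  have hab : op a b < 2 ^ W := Nat.lt_pow_two_of_testBit _ fun i hi => by
    rw [h, Nat.testBit_lt_two_pow (lt_of_lt_of_le ha (Nat.pow_le_pow_right (by omega) hi)),
      Nat.testBit_lt_two_pow (lt_of_lt_of_le hb (Nat.pow_le_pow_right (by omega) hi)), h0]
  refine Nat.eq_of_testBit_eq fun i => ?_
  rw [h, Nat.testBit_two_pow_mul_add _ ha, Nat.testBit_two_pow_mul_add _ hb,
    Nat.testBit_two_pow_mul_add _ hab]
  split <;> rw [h]

variable {α : Type}

/-- Blocks of width `W`. -/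
def pk (W : ℕ) (f : α → ℕ) : List α → ℕ
  | [] => 0
  | z :: Z => 2 ^ W * pk W f Z + f z

theorem pk_op (op : ℕ → ℕ → ℕ) (f : Bool → Bool → Bool)
    (h : ∀ a b i, (op a b).testBit i = f (a.testBit i) (b.testBit i)) (h0 : f false false = false)
    {W : ℕ} {g k : α → ℕ} : ∀ Z : List α, (∀ z ∈ Z, g z < 2 ^ W ∧ k z < 2 ^ W) →
    op (pk W g Z) (pk W k Z) = pk W (fun z => op (g z) (k z)) Z
  | [], _ => Nat.eq_of_testBit_eq fun i => by simp [pk, h, h0]
  | z :: Z, hz => by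
    simp only [pk]
    rw [blk op f h h0 _ _ (hz z (by simp)).1 (hz z (by simp)).2,
      pk_op op f h h0 Z fun y hy => hz y (by simp [hy])]

theorem pk_add {W : ℕ} {g k : α → ℕ} : ∀ Z : List α,
    pk W g Z + pk W k Z = pk W (fun z => g z + k z) Z
  | [] => rfl
  | z :: Z => by simp only [pk]; rw [← pk_add Z]; ring

theorem pk_mul {W : ℕ} {g : α → ℕ} (c : ℕ) : ∀ Z : List α,
    pk W g Z * c = pk W (fun z => g z * c) Z
  | [] => by simp [pk]
  | z :: Z => by simp only [pk]; rw [← pk_mul c Z]; ring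

theorem pk_congr {W : ℕ} {g k : α → ℕ} : ∀ Z : List α, (∀ z ∈ Z, g z = k z) → pk W g Z = pk W k Z
  | [], _ => rfl
  | z :: Z, h => by
    simp only [pk]; rw [h z (by simp), pk_congr Z fun y hy => h y (by simp [hy])]

theorem pk_mod {W : ℕ} {g : α → ℕ} : ∀ Z : List α,
    pk W g Z % (2 ^ W - 1) = (Z.map g).sum % (2 ^ W - 1)
  | [] => rfl
  | z :: Z => by
    have e : 2 ^ W * pk W g Z + g z = g z + pk W g Z + (2 ^ W - 1) * pk W g Z := by
      obtain ⟨k, hk⟩ : ∃ k, 2 ^ W = k + 1 := ⟨2 ^ W - 1, by have := Nat.two_pow_pos W; omega⟩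
      rw [hk, Nat.add_sub_cancel]; ring
    simp only [pk, List.map_cons, List.sum_cons]
    rw [e, Nat.add_mul_mod_self_left, Nat.add_mod, pk_mod Z, ← Nat.add_mod]

/-- Both lists, with a mark. -/
def both (P N : List ℕ) : List (Bool × ℕ) := P.map (Prod.mk true) ++ N.map (Prod.mk false)

theorem pack_cons (W : ℕ) (f : ℕ → ℕ) (x : ℕ) (l : List ℕ) (t : ℕ) :
    pack W f (x :: l) t = 2 ^ W * pack W f l t + f x := by
  show f x + pack W f l t <<< W = _
  rw [Nat.shiftLeft_eq]; ring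

theorem pack_eq (W : ℕ) (f g : ℕ → ℕ) (P N : List ℕ) : pack W f P (pack W g N 0) =
    pk W (fun z => cond z.1 (f z.2) (g z.2)) (both P N) := by
  unfold both
  induction P with
  | nil =>
    show pack W g N 0 = pk W _ (N.map _)
    induction N with
    | nil => rfl
    | cons x N ih => rw [pack_cons, ih]; rfl
  | cons x P ih => rw [pack_cons, ih]; rfl

theorem small_spec {w : ℕ} : ∀ l : List ℕ, small w l = true →
    ∀ x ∈ l, x % 2 ^ 336 < 2 ^ w ∧ x / 2 ^ 336 < 4096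
  | [], _ => by simp
  | y :: l, h => by
    have h' : ((y % 2 ^ 336).blt (2 ^ w) && (y / 2 ^ 336).blt 4096 && small w l) = true := h
    simp only [Bool.and_eq_true, Nat.blt_eq] at h'
    intro x hx
    rcases List.mem_cons.1 hx with rfl | hx
    · exact h'.1
    · exact small_spec l h'.2 x hx

theorem tot_cons (x : ℕ) (l : List ℕ) : tot (x :: l) = x / 2 ^ 336 + tot l := rfl

/-- The low bits of `m` fields. -/
def ones (m : ℕ) : ℕ := (2 ^ (6 * m) - 1) / 63

theorem ones_spec : ∀ m, ones m * 63 + 1 = 2 ^ (6 * m) ∧ ones (m + 1) = 2 ^ 6 * ones m + 1 := by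
  have key : ∀ m, ∃ k, 2 ^ (6 * m) = k * 63 + 1 := by
    intro m
    induction m with
    | zero => exact ⟨0, rfl⟩
    | succ m ih =>
      obtain ⟨k, hk⟩ := ih
      exact ⟨64 * k + 1, by rw [Nat.mul_succ, Nat.pow_add, hk]; ring⟩
  intro m
  obtain ⟨k, hk⟩ := key m
  unfold ones
  rw [Nat.mul_add 6 m 1, Nat.pow_add, hk]
  omega

theorem fin64 : ∀ y < 64, y.testBit 5 = false →
    (y &&& 32 = 0) ∧ ((∃ k < 5, y.testBit k = false) → y + 1 < 64 ∧ (y + 1) &&& 32 = 0) := by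
  decide

theorem split64 (y : ℕ) : y = 2 ^ 6 * (y / 64) + y % 64 := by omega

theorem bit_div (y i : ℕ) : (y / 64).testBit i = y.testBit (6 + i) := by
  rw [show 64 = 2 ^ 6 from rfl, Nat.testBit_div_two_pow, Nat.add_comm]

theorem bit_mod (y : ℕ) {i : ℕ} (h : i < 6) : (y % 64).testBit i = y.testBit i := by
  rw [show 64 = 2 ^ 6 from rfl, Nat.testBit_mod_two_pow]; simp [h]

theorem carry0 : ∀ (m y : ℕ), (∀ s, y.testBit (6 * s + 5) = false) → y &&& (ones m * 32) = 0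
  | 0, y, _ => by simp [ones]
  | m + 1, y, h => by
    have e : ones (m + 1) * 32 = 2 ^ 6 * (ones m * 32) + 32 := by rw [(ones_spec m).2]; ring
    have h1 := fin64 (y % 64) (by omega) (by rw [bit_mod y (by omega)]; exact h 0)
    rw [e, split64 y, blk (· &&& ·) (· && ·) Nat.testBit_and rfl _ _ (by omega) (by omega), h1.1,
      carry0 m (y / 64) fun s => by rw [bit_div, ← h (s + 1)]; congr 1; omega]
    rfl

theorem carry1 : ∀ (m y : ℕ), (∀ s, y.testBit (6 * s + 5) = false ∧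
    ∃ k < 5, y.testBit (6 * s + k) = false) → (y + ones m) &&& (ones m * 32) = 0
  | 0, y, _ => by simp [ones]
  | m + 1, y, h => by
    have e : ones (m + 1) * 32 = 2 ^ 6 * (ones m * 32) + 32 := by rw [(ones_spec m).2]; ring
    have h1 := (fin64 (y % 64) (by omega) (by rw [bit_mod y (by omega)]; exact (h 0).1)).2 (by
      obtain ⟨k, hk, hb⟩ := (h 0).2
      exact ⟨k, hk, by rw [bit_mod y (by omega)]; simpa using hb⟩)
    have e2 : y + ones (m + 1) = 2 ^ 6 * (y / 64 + ones m) + (y % 64 + 1) := by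
      rw [(ones_spec m).2]; omega
    have ih := carry1 m (y / 64) fun s => by
      obtain ⟨h2, k, hk, hb⟩ := h (s + 1)
      exact ⟨by rw [bit_div, ← h2]; congr 1; omega, k, hk, by rw [bit_div, ← hb]; congr 1; omega⟩
    rw [e, e2, blk (· &&& ·) (· && ·) Nat.testBit_and rfl _ _ (by omega) (by omega), h1.2, ih]
    rfl

/-- The test of one block. -/
def tst (m E : ℕ) (z : Bool × ℕ) : ℕ :=
  (((E ||| z.2 % 2 ^ 336) + cond z.1 (ones m) 0) ^^^ E) &&&
    cond z.1 (ones m * 32) (2 ^ (6 * m) - 1)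

/-- The flag of one block. -/
def flg (m E : ℕ) (z : Bool × ℕ) : ℕ := if tst m E z = 0 then 0 else 1

theorem flag_eq {w a : ℕ} (h : a < 2 ^ w) :
    (a + (2 ^ w - 1)) &&& 2 ^ w = (if a = 0 then 0 else 1) * 2 ^ w := by
  have p := Nat.two_pow_pos w
  rw [Nat.and_two_pow]
  split
  · rw [Nat.testBit_lt_two_pow (by omega)]; rfl
  · have e : a + (2 ^ w - 1) = 2 ^ w + (a - 1) := by omega
    rw [e, Nat.testBit_two_pow_add_eq, Nat.testBit_lt_two_pow (by omega)]; rfl

theorem tst_P {m E x : ℕ} {F : ℕ → Prop} (hF : ∀ s, ¬ F (6 * s + 5) ∧ ∃ k < 5, ¬ F (6 * s + k))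
    (hE : All F E) (h : HI F x) : flg m E (true, x) = 0 := by
  have hy : All F (E ||| x % 2 ^ 336) := fun n hn => by
    rw [Nat.testBit_or, Bool.or_eq_true, Nat.testBit_mod_two_pow, Bool.and_eq_true,
      decide_eq_true_eq] at hn
    exact hn.elim (hE n) fun a => h n a.1 a.2
  have : tst m E (true, x) = 0 := by
    show (((E ||| x % 2 ^ 336) + ones m) ^^^ E) &&& (ones m * 32) = 0
    rw [Nat.and_xor_distrib_right, carry0 m E fun s => Bool.eq_false_iff.2 fun a => (hF s).1 (hE _ a),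
      carry1 m _ fun s => ⟨Bool.eq_false_iff.2 fun a => (hF s).1 (hy _ a), ?_⟩]
    · rfl
    · obtain ⟨k, hk, hn⟩ := (hF s).2
      exact ⟨k, hk, Bool.eq_false_iff.2 fun a => hn (hy _ a)⟩
  simp [flg, this]

theorem tst_N {m E x : ℕ} {F : ℕ → Prop} (hE : All F E) (hx : x % 2 ^ 336 < 2 ^ (6 * m))
    (h : flg m E (false, x) = 0) : HI F x := by
  have h0 : tst m E (false, x) = 0 := by
    by_contra c
    simp [flg, c] at h
  have h1 : ((E ||| x % 2 ^ 336) ^^^ E) &&& (2 ^ (6 * m) - 1) = 0 := h0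
  intro n hn hb
  have b1 : (x % 2 ^ 336).testBit n = true := by
    rw [Nat.testBit_mod_two_pow, hb]; simp [hn]
  have b2 : n < 6 * m := by
    by_contra c
    rw [Nat.testBit_lt_two_pow (lt_of_lt_of_le hx (Nat.pow_le_pow_right (by omega) (by omega)))] at b1
    exact Bool.false_ne_true b1
  have b3 := congrArg (fun t => Nat.testBit t n) h1
  simp only [Nat.testBit_and, Nat.testBit_xor, Nat.testBit_or, b1, Nat.testBit_two_pow_sub_one,
    Nat.zero_testBit, b2] at b3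
  refine hE n ?_
  simpa using b3

/-- The sum of the flagged values. -/
def fs (m E : ℕ) (b : Bool) (l : List ℕ) : ℕ := (l.map fun x => flg m E (b, x) * (x / 2 ^ 336)).sum

theorem flg_le (m E : ℕ) (z : Bool × ℕ) : flg m E z = 0 ∨ flg m E z = 1 := by
  unfold flg; split <;> simp

theorem fs_P {m E : ℕ} {F : ℕ → Prop} (hF : ∀ s, ¬ F (6 * s + 5) ∧ ∃ k < 5, ¬ F (6 * s + k))
    (hE : All F E) : ∀ l : List ℕ, wsum F l + fs m E true l ≤ tot l
  | [] => le_rfl
  | x :: l => by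
    have ih := fs_P (m := m) hF hE l
    rw [tot_cons]
    simp only [wsum, fs, List.map_cons, List.sum_cons] at ih ⊢
    by_cases c : HI F x
    · rw [if_pos c, tst_P hF hE c]; omega
    · rw [if_neg c]
      rcases flg_le m E (true, x) with e | e <;> rw [e] <;> omega

theorem fs_N {m E : ℕ} {F : ℕ → Prop} (hE : All F E) : ∀ l : List ℕ,
    (∀ x ∈ l, x % 2 ^ 336 < 2 ^ (6 * m)) → tot l ≤ wsum F l + fs m E false l ∧ fs m E false l ≤ tot l
  | [], _ => ⟨le_rfl, le_rfl⟩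
  | x :: l, h => by
    have ih := fs_N (m := m) hE l fun y hy => h y (by simp [hy])
    rw [tot_cons]
    simp only [wsum, fs, List.map_cons, List.sum_cons] at ih ⊢
    rcases flg_le m E (false, x) with e | e
    · rw [if_pos (tst_N hE (h x (by simp)) e), e]; omega
    · rw [e]; omega

theorem sum_gen (f : Bool × ℕ → ℕ) (v : ℕ → ℕ) (c : ℕ) (P N : List ℕ) :
    ((both P N).map fun z => f z * cond z.1 (v z.2) (v z.2 * c)).sum =
    (P.map fun x => f (true, x) * v x).sum + (N.map fun x => f (false, x) * v x).sum * c := by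
  unfold both
  rw [List.map_append, List.sum_append, List.map_map, List.map_map, ← List.sum_map_mul_right]
  exact congrArg₂ (· + ·) rfl
    (congrArg List.sum (List.map_congr_left fun x _ => (Nat.mul_assoc _ _ _).symm))

theorem sum_both (m E : ℕ) (P N : List ℕ) : ((both P N).map fun z =>
    flg m E z * cond z.1 (z.2 / 2 ^ 336) (z.2 / 2 ^ 336 * 2 ^ 24)).sum =
    fs m E true P + fs m E false N * 2 ^ 24 := by
  have := sum_gen (flg m E) (fun x => x / 2 ^ 336) (2 ^ 24) P N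
  unfold fs
  exact this

theorem dead_def (w E rp x on mk fl tp vl md : ℕ) : dead w E rp x on mk fl tp vl md =
    ((((((((((E * rp) ||| x) + on) ^^^ (E * rp)) &&& mk) + fl) &&& tp) >>> w) * 68719476735) &&& vl) %
      md := rfl

theorem dead_eq {m E : ℕ} (hm : 25 ≤ m) (hE : E < 2 ^ (6 * m)) (Z : List (Bool × ℕ))
    (hZ : ∀ z ∈ Z, z.2 % 2 ^ 336 < 2 ^ (6 * m) ∧ z.2 / 2 ^ 336 < 4096) :
    dead (6 * m) E (pk (6 * m + 6) (fun _ => 1) Z) (pk (6 * m + 6) (fun z => z.2 % 2 ^ 336) Z)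
      (pk (6 * m + 6) (fun z => cond z.1 (ones m) 0) Z)
      (pk (6 * m + 6) (fun z => cond z.1 (ones m * 32) (2 ^ (6 * m) - 1)) Z)
      (pk (6 * m + 6) (fun _ => 1) Z * (2 ^ (6 * m) - 1))
      (pk (6 * m + 6) (fun _ => 1) Z * 2 ^ (6 * m))
      (pk (6 * m + 6) (fun z => cond z.1 (z.2 / 2 ^ 336) (z.2 / 2 ^ 336 * 2 ^ 24)) Z)
      (2 ^ (6 * m + 6) - 1) =
    (Z.map fun z => flg m E z * cond z.1 (z.2 / 2 ^ 336) (z.2 / 2 ^ 336 * 2 ^ 24)).sum %
      (2 ^ (6 * m + 6) - 1) := by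
  have o := (ones_spec m).1
  have p : 2 ^ (6 * m + 6) = 64 * 2 ^ (6 * m) := by rw [Nat.pow_add]; ring
  have p1 : 2 ^ (6 * m + 1) = 2 * 2 ^ (6 * m) := by rw [Nat.pow_add]; ring
  have q : 2 ^ 36 ≤ 2 ^ (6 * m) := Nat.pow_le_pow_right (by omega) (by omega)
  have a1 : ∀ z ∈ Z, E ||| z.2 % 2 ^ 336 < 2 ^ (6 * m) := fun z hz =>
    Nat.or_lt_two_pow hE (hZ z hz).1
  have a2 : ∀ z ∈ Z, (E ||| z.2 % 2 ^ 336) + cond z.1 (ones m) 0 < 2 ^ (6 * m + 1) := fun z hz => by
    have := a1 z hz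
    cases z.1 <;> simp only [cond_true, cond_false] <;> omega
  have a3 : ∀ z : Bool × ℕ, cond z.1 (ones m * 32) (2 ^ (6 * m) - 1) < 2 ^ (6 * m) := fun z => by
    cases z.1 <;> simp only [cond_true, cond_false] <;> omega
  have a4 : ∀ z, tst m E z < 2 ^ (6 * m) := fun z => lt_of_le_of_lt Nat.and_le_right (a3 z)
  have a5 : ∀ z ∈ Z, cond z.1 (z.2 / 2 ^ 336) (z.2 / 2 ^ 336 * 2 ^ 24) < 2 ^ 36 := fun z hz => by
    have := (hZ z hz).2
    cases z.1 <;> simp only [cond_true, cond_false] <;> omega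
  have e0 : E * pk (6 * m + 6) (fun _ : Bool × ℕ => 1) Z = pk (6 * m + 6) (fun _ => E) Z := by
    rw [Nat.mul_comm, pk_mul]; simp
  rw [dead_def, e0, pk_op (· ||| ·) (· || ·) Nat.testBit_or rfl Z
      fun z hz => ⟨by omega, by have := (hZ z hz).1; omega⟩, pk_add,
    pk_op (· ^^^ ·) xor Nat.testBit_xor rfl Z fun z hz => ⟨by have := a2 z hz; omega, by omega⟩,
    pk_op (· &&& ·) (· && ·) Nat.testBit_and rfl Z fun z hz =>
      ⟨lt_of_lt_of_le (Nat.xor_lt_two_pow (a2 z hz) (by omega)) (by omega),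
        by have := a3 z; omega⟩, pk_mul, pk_mul, pk_add,
    pk_op (· &&& ·) (· && ·) Nat.testBit_and rfl Z fun z _ =>
      ⟨by have : _ < _ := a4 z; unfold tst at this; omega, by omega⟩,
    pk_congr (k := fun z => flg m E z * 2 ^ (6 * m)) Z fun z _ => by
      simp only [Nat.one_mul]; exact flag_eq (a4 z),
    ← pk_mul, Nat.shiftRight_eq_div_pow, Nat.mul_div_cancel _ (Nat.two_pow_pos _), pk_mul,
    pk_op (· &&& ·) (· && ·) Nat.testBit_and rfl Z fun z hz =>
      ⟨by have := flg_le m E z; omega, lt_of_lt_of_le (a5 z hz) (by omega)⟩,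
    pk_congr (k := fun z => flg m E z * cond z.1 (z.2 / 2 ^ 336) (z.2 / 2 ^ 336 * 2 ^ 24)) Z
      fun z hz => ?_, pk_mod]
  rcases flg_le m E z with e | e
  · simp [e]
  · show flg m E z * (2 ^ 36 - 1) &&& _ = _
    rw [e, Nat.one_mul, Nat.one_mul, Nat.and_comm, Nat.and_two_pow_sub_one_eq_mod,
      Nat.mod_eq_of_lt (a5 z hz)]

theorem gain_eq (w cap rp x on mk fl tp vl md tP tN E D : ℕ)
    (h : dead w E rp x on mk fl tp vl md = D) : gain w cap rp x on mk fl tp vl md tP tN E =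
    (cap - (cap - (tP - D % 2 ^ 24))) + (cap - (tN - D / 2 ^ 24)) := by
  rw [← Nat.and_two_pow_sub_one_eq_mod, ← Nat.shiftRight_eq_div_pow]
  unfold gain
  rw [h]
  rfl

end Vec

open Vec in
theorem vec_thm : StVec := by
  intro d cap P N rp x on mk fl tp vl md tP tN h5 _ h F E hF hE hlt
  simp only [vecOk, Bool.and_eq_true, Nat.beq_eq, Nat.blt_eq, pack_eq] at h
  obtain ⟨⟨⟨⟨⟨⟨⟨⟨⟨⟨⟨⟨⟨h1, h2⟩, h3⟩, h4⟩, h6⟩, h7⟩, rfl⟩, rfl⟩, rfl⟩, rfl⟩, rfl⟩, rfl⟩, rfl⟩, rfl⟩ := h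
  have e : 30 * d = 6 * (5 * d) := by omega
  rw [e] at h1 h2 hlt ⊢
  have s1 := small_spec P h1
  have s2 := small_spec N h2
  have D := dead_eq (m := 5 * d) (by omega) hlt (both P N) fun z hz => by
    rcases List.mem_append.1 hz with a | a <;> obtain ⟨y, hy, rfl⟩ := List.mem_map.1 a
    exacts [s1 y hy, s2 y hy]
  have f1 := fs_P (m := 5 * d) hF hE P
  have f2 := fs_N (m := 5 * d) hE N fun y hy => (s2 y hy).1
  have q : 2 ^ 50 ≤ 2 ^ (6 * (5 * d) + 6) := Nat.pow_le_pow_right (by omega) (by omega)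
  rw [sum_both, Nat.mod_eq_of_lt (by omega)] at D
  simp only [Bool.cond_self]
  unfold ones at D
  rw [gain_eq _ _ _ _ _ _ _ _ _ _ _ _ _ _ D]
  omega

end Pool.Agent.FCT.Dis
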