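import Pool.Agent.Lib.MP_fe5cb4_co.FCT.Dis.Run
import Pool.Agent.Lib.MP_fe5cb4_co.FCT.Dis.Quiz
import Pool.Agent.Lib.MP_fe5cb4_co.FCT.Dis.Rot
import Pool.Agent.Lib.MP_fe5cb4_co.FCT.Dis.Inst
import Pool.Agent.Lib.MP_fe5cb4_co.FCT.Dis.Vec
import Pool.Agent.Lib.MP_fe5cb4_co.FCT.Dis.Fin

/-!
Discharging: soundness of the checker.
-/

set_option autoImplicit false

namespace Pool.Agent.FCT.Dis

theorem run_all : StRun := run_thm rot_thm (quiz_thm opp_thm)

theorem gok_all {rs : List ℕ} {d cap rp x on mk fl tp vl md tP tN : ℕ} (h11 : d ≤ 11)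
    (H : vecOk d (insP d rs) (insN d rs) rp x on mk fl tp vl md tP tN = true) :
    GOk rs d cap (gain (30 * d) cap rp x on mk fl tp vl md tP tN) :=
  gok_thm (ins_thm (inst_thm opp_thm)) vec_thm h11 H

end Pool.Agent.FCT.Dis
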